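import Mathlib

set_option autoImplicit false

/-!
Units modulo `n` for which the multiples of finitely many residues are small, for moduli `n` without
small prime factors (the pigeonhole principle), and units modulo `m` near the middle.
-/

open Finset

namespace Pool.Agent.NH53.LP

/-- The number of the non-units modulo `n` is at most `n ∑ 1 / p`. -/
lemma card_nonunits_le {n : ℕ} (hn : 0 < n) :
    ((((range n).filter fun c => ¬ Nat.Coprime c n).card : ℕ) : ℚ) ≤
      n * ∑ p ∈ n.primeFactors, (1 : ℚ) / p := by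
  classical
  have h1 : ((range n).filter fun c => ¬ Nat.Coprime c n) ⊆
      n.primeFactors.biUnion fun p => (range n).filter fun c => p ∣ c := by
    intro c hc
    rw [mem_filter, mem_range] at hc
    obtain ⟨p, hp, hpc, hpn⟩ := Nat.Prime.not_coprime_iff_dvd.1 hc.2
    rw [mem_biUnion]
    exact ⟨p, Nat.mem_primeFactors.2 ⟨hp, hpn, hn.ne'⟩, mem_filter.2 ⟨mem_range.2 hc.1, hpc⟩⟩
  have h2 : ∀ p ∈ n.primeFactors, (((range n).filter fun c => p ∣ c).card : ℚ) = n * (1 / p) := by
    intro p hp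
    obtain ⟨hp1, ⟨k, hk⟩, _⟩ := Nat.mem_primeFactors.1 hp
    have hp0 : 0 < p := hp1.pos
    have h3 : ((range n).filter fun c => p ∣ c) = (range k).image fun j => p * j := by
      ext c
      simp only [mem_filter, mem_range, mem_image]
      constructor
      · rintro ⟨h, j, rfl⟩
        refine ⟨j, ?_, rfl⟩
        rw [hk] at h
        exact lt_of_mul_lt_mul_left h (Nat.zero_le _)
      · rintro ⟨j, hj, rfl⟩
        refine ⟨?_, dvd_mul_right _ _⟩
        rw [hk]
        exact Nat.mul_lt_mul_of_pos_left hj hp0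
    rw [h3, card_image_of_injective _ (fun a b h => Nat.eq_of_mul_eq_mul_left hp0 h), card_range,
      hk]
    have : (p : ℚ) ≠ 0 := by exact_mod_cast hp0.ne'
    push_cast
    field_simp
  calc ((((range n).filter fun c => ¬ Nat.Coprime c n).card : ℕ) : ℚ)
      ≤ ((n.primeFactors.biUnion fun p => (range n).filter fun c => p ∣ c).card : ℚ) := by
        exact_mod_cast card_le_card h1
    _ ≤ ∑ p ∈ n.primeFactors, (((range n).filter fun c => p ∣ c).card : ℚ) := by
        exact_mod_cast card_biUnion_le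
    _ = n * ∑ p ∈ n.primeFactors, (1 : ℚ) / p := by
        rw [mul_sum]
        exact sum_congr rfl h2

/-- **Units with small multiples.** -/
theorem exists_unit_small {n K : ℕ} (hn : 0 < n) (hK : 0 < K) (S : Finset ℤ)
    (h : (∑ p ∈ n.primeFactors, (1 : ℚ) / p) * (K : ℚ) ^ S.card < 1) :
    ∃ c : ℤ, IsCoprime c (n : ℤ) ∧ ∀ g ∈ S, ∃ z : ℤ, |c * g - n * z| * K < n := by
  classical
  by_contra hcon
  push Not at hcon
  have hnz : (0 : ℤ) < n := by exact_mod_cast hn
  have hKz : (0 : ℤ) < K := by exact_mod_cast hK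
  -- the boxes
  have hφ : ∀ (j : ℕ) (g : ℤ), ((K : ℤ) * ((j * g) % n) / n).toNat < K := by
    intro j g
    have h1 := Int.emod_nonneg (j * g) hnz.ne'
    have h2 := Int.emod_lt_of_pos (j * g) hnz
    have h3 : (K : ℤ) * ((j * g) % n) / n < K := by
      apply Int.ediv_lt_of_lt_mul hnz
      exact mul_lt_mul_of_pos_left h2 hKz
    have h4 : 0 ≤ (K : ℤ) * ((j * g) % n) / n := Int.ediv_nonneg (by positivity) hnz.le
    omega
  let φ : ℕ → (S → Fin K) := fun j g => ⟨((K : ℤ) * ((j * (g : ℤ)) % n) / n).toNat, hφ j g⟩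
  set W : Finset ℕ := (range n).filter fun c => ¬ Nat.Coprime c n with hW
  have hfib : ∀ b ∈ (univ : Finset (S → Fin K)),
      ((range n).filter fun j => φ j = b).card ≤ W.card := by
    intro b _
    rcases ((range n).filter fun j => φ j = b).eq_empty_or_nonempty with h0 | ⟨j₀, hj₀⟩
    · rw [h0]; simp
    rw [mem_filter, mem_range] at hj₀
    refine card_le_card_of_injOn (fun j => (((j : ℤ) - j₀) % n).toNat) ?_ ?_
    · intro j hj
      rw [mem_coe, mem_filter, mem_range] at hj
      have e0 := Int.emod_nonneg ((j : ℤ) - j₀) hnz.ne'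
      have e1 := Int.emod_lt_of_pos ((j : ℤ) - j₀) hnz
      rw [mem_coe, hW, mem_filter, mem_range]
      change (((j : ℤ) - j₀) % n).toNat < n ∧ ¬ Nat.Coprime (((j : ℤ) - j₀) % n).toNat n
      refine ⟨by omega, fun hco => ?_⟩
      -- a good unit
      have hcop : IsCoprime ((((j : ℤ) - j₀) % n)) (n : ℤ) := by
        rw [← Int.toNat_of_nonneg e0]
        exact Nat.isCoprime_iff_coprime.2 hco
      obtain ⟨g, hg, hgz⟩ := hcon _ hcop
      have h5 : φ j = φ j₀ := hj.2.trans hj₀.2.symm
      have h6 := congrFun h5 ⟨g, hg⟩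
      have h7 : ((K : ℤ) * ((j * g) % n) / n).toNat = ((K : ℤ) * ((j₀ * g) % n) / n).toNat :=
        congrArg Fin.val h6
      have a1 := Int.emod_nonneg (j * g) hnz.ne'
      have a2 := Int.emod_nonneg (j₀ * g) hnz.ne'
      have h8 : 0 ≤ (K : ℤ) * ((j * g) % n) / n := Int.ediv_nonneg (by positivity) hnz.le
      have h9 : 0 ≤ (K : ℤ) * ((j₀ * g) % n) / n := Int.ediv_nonneg (by positivity) hnz.le
      have h10 : (K : ℤ) * ((j * g) % n) / n = (K : ℤ) * ((j₀ * g) % n) / n := by omega
      have b1 := Int.mul_ediv_add_emod ((K : ℤ) * ((j * g) % n)) n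
      have b2 := Int.mul_ediv_add_emod ((K : ℤ) * ((j₀ * g) % n)) n
      have b3 := Int.emod_nonneg ((K : ℤ) * ((j * g) % n)) hnz.ne'
      have b4 := Int.emod_lt_of_pos ((K : ℤ) * ((j * g) % n)) hnz
      have b5 := Int.emod_nonneg ((K : ℤ) * ((j₀ * g) % n)) hnz.ne'
      have b6 := Int.emod_lt_of_pos ((K : ℤ) * ((j₀ * g) % n)) hnz
      rw [h10] at b1
      -- the multiple of `g` is small
      obtain ⟨q, hq⟩ : (n : ℤ) ∣ ((j : ℤ) - j₀) % n * g - ((j * g) % n - (j₀ * g) % n) := by
        have c1 : (n : ℤ) ∣ ((j : ℤ) - j₀) - ((j : ℤ) - j₀) % n := Int.dvd_self_sub_emod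
        have c2 : (n : ℤ) ∣ (j * g) - (j * g) % n := Int.dvd_self_sub_emod
        have c3 : (n : ℤ) ∣ (j₀ * g) - (j₀ * g) % n := Int.dvd_self_sub_emod
        have c4 := dvd_sub (dvd_sub c2 c3) (c1.mul_right g)
        have c5 : (j * g) - (j * g) % n - ((j₀ * g) - (j₀ * g) % n) -
            (((j : ℤ) - j₀) - ((j : ℤ) - j₀) % n) * g =
            ((j : ℤ) - j₀) % n * g - ((j * g) % n - (j₀ * g) % n) := by ring
        rwa [c5] at c4
      have h11 := hgz q
      have h12 : ((j : ℤ) - j₀) % n * g - n * q = (j * g) % n - (j₀ * g) % n := by linarith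
      rw [h12] at h11
      have h13 : |((j * g) % (n : ℤ) - (j₀ * g) % n)| * K =
          |(K : ℤ) * ((j * g) % n) - K * ((j₀ * g) % n)| := by
        rw [← mul_sub, abs_mul, abs_of_pos hKz]
        ring
      rw [h13] at h11
      have h14 : |(K : ℤ) * ((j * g) % n) - K * ((j₀ * g) % n)| < n := by
        rw [abs_lt]
        constructor <;> linarith
      linarith
    · intro j hj j' hj' hjj
      rw [mem_coe, mem_filter, mem_range] at hj hj'
      have e0 := Int.emod_nonneg ((j : ℤ) - j₀) hnz.ne'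
      have e0' := Int.emod_nonneg ((j' : ℤ) - j₀) hnz.ne'
      have h1 : ((j : ℤ) - j₀) % n = ((j' : ℤ) - j₀) % n := by
        have : (((j : ℤ) - j₀) % n).toNat = (((j' : ℤ) - j₀) % n).toNat := hjj
        omega
      have h2 : (n : ℤ) ∣ (j : ℤ) - j' := by
        have := Int.emod_emod_of_dvd
        have h3 := Int.emod_eq_emod_iff_emod_sub_eq_zero.1 h1
        have h4 := Int.dvd_of_emod_eq_zero h3
        have h5 : (j : ℤ) - j₀ - (j' - j₀) = j - j' := by ring
        rwa [h5] at h4
      obtain ⟨q, hq⟩ := h2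
      have h3 : q = 0 := by
        by_contra hq0
        rcases lt_or_gt_of_ne hq0 with h4 | h4
        · have h5 : (n : ℤ) * q ≤ n * (-1) := mul_le_mul_of_nonneg_left (by omega) hnz.le
          have := hj.1
          have := hj'.1
          omega
        · have h5 : (n : ℤ) * 1 ≤ n * q := mul_le_mul_of_nonneg_left (by omega) hnz.le
          have := hj.1
          have := hj'.1
          omega
      rw [h3, mul_zero] at hq
      omega
  have htot : (n : ℚ) ≤ (K : ℚ) ^ S.card * W.card := by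
    have h1 := card_eq_sum_card_fiberwise (s := range n) (t := (univ : Finset (S → Fin K)))
      (f := φ) (fun _ _ => mem_coe.2 (mem_univ _))
    rw [card_range] at h1
    have h2 := sum_le_card_nsmul _ _ _ hfib
    rw [← h1, card_univ, Fintype.card_pi, prod_const, Fintype.card_fin, card_univ,
      Fintype.card_coe, smul_eq_mul] at h2
    exact_mod_cast h2
  have h3 := card_nonunits_le hn
  rw [← hW] at h3
  have hnq : (0 : ℚ) < n := by exact_mod_cast hn
  have h4 : (K : ℚ) ^ S.card * W.card ≤ n * ((∑ p ∈ n.primeFactors, (1 : ℚ) / p) *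
      (K : ℚ) ^ S.card) := by
    calc (K : ℚ) ^ S.card * W.card ≤ (K : ℚ) ^ S.card * (n * ∑ p ∈ n.primeFactors, (1 : ℚ) / p) :=
          mul_le_mul_of_nonneg_left h3 (by positivity)
      _ = _ := by ring
  have h5 : n * ((∑ p ∈ n.primeFactors, (1 : ℚ) / p) * (K : ℚ) ^ S.card) < n * 1 :=
    mul_lt_mul_of_pos_left h hnq
  linarith

/-- A unit modulo `m ≥ 2` in the middle. -/
lemma exists_middle {m : ℕ} (hm : 2 ≤ m) : ∃ t : ℕ, Nat.Coprime t m ∧ m ≤ 6 * t ∧ 6 * t ≤ 5 * m := by
  have hcop : ∀ t : ℕ, (∀ p : ℕ, p.Prime → p ∣ t → p ∣ m → False) → Nat.Coprime t m := by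
    intro t h
    by_contra h1
    obtain ⟨p, hp, hpt, hpm⟩ := Nat.Prime.not_coprime_iff_dvd.1 h1
    exact h p hp hpt hpm
  rcases Nat.even_or_odd' m with ⟨s, rfl | rfl⟩
  · rcases Nat.even_or_odd' s with ⟨w, rfl | rfl⟩
    · refine ⟨2 * w - 1, hcop _ fun p hp h1 h2 => ?_, by omega, by omega⟩
      have h3 : p ∣ 2 := by
        have h4 : 2 * (2 * w) - 2 * (2 * w - 1) = 2 := by omega
        rw [← h4]
        exact Nat.dvd_sub h2 (h1.mul_left 2)
      have h5 := (Nat.prime_dvd_prime_iff_eq hp Nat.prime_two).1 h3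
      rw [h5] at h1
      omega
    · rcases Nat.eq_zero_or_pos w with rfl | hw
      · exact ⟨1, by norm_num, by norm_num, by norm_num⟩
      · refine ⟨2 * w - 1, hcop _ fun p hp h1 h2 => ?_, by omega, by omega⟩
        have h3 : p ∣ 4 := by
          have h4 : 2 * (2 * w + 1) - 2 * (2 * w - 1) = 4 := by omega
          rw [← h4]
          exact Nat.dvd_sub h2 (h1.mul_left 2)
        have h5 : p ∣ 2 := by
          have : (4 : ℕ) = 2 ^ 2 := by norm_num
          rw [this] at h3
          exact hp.dvd_of_dvd_pow h3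
        have h6 := (Nat.prime_dvd_prime_iff_eq hp Nat.prime_two).1 h5
        rw [h6] at h1
        omega
  · refine ⟨s, hcop _ fun p hp h1 h2 => ?_, by omega, by omega⟩
    have h3 : p ∣ 1 := by
      have h4 : 2 * s + 1 - 2 * s = 1 := by omega
      rw [← h4]
      exact Nat.dvd_sub h2 (h1.mul_left 2)
    exact hp.one_lt.ne' (Nat.dvd_one.1 h3)

end Pool.Agent.NH53.LP
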