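import Pool.Agent.NH53.LP.Bohr

set_option autoImplicit false

/-!
Multiples of finitely many families of residues modulo `N` which are close to each other.
-/

open Finset

namespace Pool.Agent.NH53.LP

variable {r N n K : ℕ}

/-- The number of the residue classes of the `e l` modulo `N`. -/
def cls (N : ℕ) (e : Fin r → ℤ) : ℕ := (univ.image fun l => e l % (N : ℤ)).card

lemma exists_cluster (hN : 0 < N) (hn : 0 < n) (hnN : n ∣ N) (hK : 0 < K) {E : Fin 3 → Fin r → ℤ}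
    (k : Fin r) (Z : Finset (Fin 3)) (hZ : ∀ w ∈ Z, ∀ l, (N : ℤ) ∣ n * (E w l - E w k))
    (hS : (∑ p ∈ n.primeFactors, (1 : ℚ) / p) * (K : ℚ) ^ (∑ w ∈ Z, (cls N (E w) - 1)) < 1) :
    ∃ c : ℤ, IsCoprime c (n : ℤ) ∧ ∀ u : ℤ, (n : ℤ) ∣ u - c → ∀ w ∈ Z, ∀ l,
      ∃ e : ℤ, |e| * K < N ∧ (N : ℤ) ∣ u * (E w l - E w k) - e := by
  classical
  have hNz : (0 : ℤ) < N := by exact_mod_cast hN
  have hnz : (0 : ℤ) < n := by exact_mod_cast hn
  obtain ⟨N1, hN1⟩ := hnN
  have hN1' : (N : ℤ) = n * N1 := by exact_mod_cast hN1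
  have hN1z : (0 : ℤ) < N1 := by
    rcases Nat.eq_zero_or_pos N1 with h | h
    · rw [h] at hN1; omega
    · exact_mod_cast h
  -- the residue of the quotient
  let ψ : Fin 3 → ℤ → ℤ := fun w t => ((n : ℤ) * (t - E w k) / N) % n
  let S : Fin 3 → Finset ℤ := fun w => ((univ.image fun l => ψ w (E w l)).erase 0)
  have hψ : ∀ w ∈ Z, ∀ l, ψ w (E w l % N) = ψ w (E w l) := by
    intro w hw l
    obtain ⟨q, hq⟩ := hZ w hw l
    obtain ⟨q', hq'⟩ : (N : ℤ) ∣ E w l - E w l % N := Int.dvd_self_sub_emod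
    have h1 : (n : ℤ) * (E w l % N - E w k) = N * (q - n * q') := by
      linear_combination hq - (n : ℤ) * hq'
    change ((n : ℤ) * (E w l % N - E w k) / N) % n = ((n : ℤ) * (E w l - E w k) / N) % n
    rw [h1, hq, Int.mul_ediv_cancel_left _ hNz.ne', Int.mul_ediv_cancel_left _ hNz.ne']
    rw [Int.sub_mul_emod_self_left]
  have hψk : ∀ w, ψ w (E w k) = 0 := by
    intro w
    simp [ψ]
  have hcard : ∀ w ∈ Z, (S w).card ≤ cls N (E w) - 1 := by
    intro w hw
    have h0 : (0 : ℤ) ∈ (univ.image fun l => ψ w (E w l)) :=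
      mem_image.2 ⟨k, mem_univ _, hψk w⟩
    have h1 : (S w).card = (univ.image fun l => ψ w (E w l)).card - 1 := card_erase_of_mem h0
    rw [h1]
    apply Nat.sub_le_sub_right
    have h2 : (univ.image fun l => ψ w (E w l)) =
        (univ.image fun l => E w l % (N : ℤ)).image (ψ w) := by
      rw [image_image]
      exact image_congr fun l _ => (hψ w hw l).symm
    rw [h2]
    exact card_image_le
  have hcardS : (Z.biUnion S).card ≤ ∑ w ∈ Z, (cls N (E w) - 1) :=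
    card_biUnion_le.trans (sum_le_sum hcard)
  have hK1 : (1 : ℚ) ≤ K := by exact_mod_cast hK
  have hsum0 : 0 ≤ ∑ p ∈ n.primeFactors, (1 : ℚ) / p := sum_nonneg fun p _ => by positivity
  obtain ⟨c, hc, hcS⟩ := exists_unit_small hn hK (Z.biUnion S)
    (lt_of_le_of_lt (mul_le_mul_of_nonneg_left (pow_le_pow_right₀ hK1 hcardS) hsum0) hS)
  refine ⟨c, hc, fun u hu w hw l => ?_⟩
  obtain ⟨q, hq⟩ := hZ w hw l
  have hD : E w l - E w k = N1 * q := by
    have h1 : (n : ℤ) * (E w l - E w k) = n * (N1 * q) := by rw [hq, hN1']; ring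
    exact mul_left_cancel₀ hnz.ne' h1
  have hψl : ψ w (E w l) = q % n := by
    change ((n : ℤ) * (E w l - E w k) / N) % n = q % n
    rw [hq, Int.mul_ediv_cancel_left _ hNz.ne']
  obtain ⟨j, hj⟩ : (n : ℤ) ∣ q - q % n := Int.dvd_self_sub_emod
  by_cases h0 : q % (n : ℤ) = 0
  · refine ⟨0, by simpa using hNz, ?_⟩
    rw [h0, sub_zero] at hj
    rw [hD, sub_zero, hj]
    exact ⟨u * j, by rw [hN1']; ring⟩
  · have hmem : q % (n : ℤ) ∈ Z.biUnion S := by
      rw [mem_biUnion]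
      refine ⟨w, hw, mem_erase.2 ⟨h0, mem_image.2 ⟨l, mem_univ _, hψl⟩⟩⟩
    obtain ⟨z, hz⟩ := hcS _ hmem
    obtain ⟨i, hi⟩ := hu
    refine ⟨N1 * (c * (q % n) - n * z), ?_, ?_⟩
    · rw [abs_mul, abs_of_pos hN1z, mul_assoc, hN1']
      have := mul_lt_mul_of_pos_left hz hN1z
      linarith
    · rw [hD]
      refine ⟨u * j + i * (q % n) + z, ?_⟩
      rw [hN1']
      linear_combination (N1 : ℤ) * u * hj + (N1 : ℤ) * (q % n) * hi

end Pool.Agent.NH53.LP
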