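import Pool.Agent.NH53.LP.Cluster

set_option autoImplicit false

/-!
Three families of residues with the arc inequality: one or two of them have denominators with large
prime factors.
-/

open Finset

namespace Pool.Agent.NH53.LP

variable {r N : ℕ}

/-- At least `r` of the residues are outside of arcs of total length one, if at one of the points all
the residues are in the interior of the arc. -/
def Arcs (N : ℕ) (E : Fin 3 → Fin r → ℤ) : Prop :=
  ∀ β : Fin 3 → ℤ, (N : ℤ) ∣ ∑ i, β i → ∀ u : ℤ, IsCoprime u (N : ℤ) →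
    ∀ γ : Fin 3 → ℤ, (∀ i, 0 ≤ γ i) → ∑ i, γ i = N →
      ∀ z, (∀ l, 0 < (u * (E z l - β z)) % N ∧ (u * (E z l - β z)) % N < γ z) →
        r ≤ ∑ i, (univ.filter fun l => γ i < (u * (E i l - β i)) % N).card

lemma lift_unit {q N : ℕ} (hN : 0 < N) (hqN : q ∣ N) (u : ℤ) (hu : IsCoprime u (q : ℤ)) :
    ∃ a : ℤ, IsCoprime a (N : ℤ) ∧ (q : ℤ) ∣ a - u := by
  have : NeZero N := ⟨hN.ne'⟩
  have : NeZero q := ⟨(Nat.pos_of_dvd_of_pos hqN hN).ne'⟩
  obtain ⟨w, hw⟩ := (ZMod.coe_int_isUnit_iff_isCoprime u q).2 hu.symm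
  obtain ⟨v, hv⟩ := ZMod.unitsMap_surjective hqN w
  set a : ℤ := ((v : ZMod N).val : ℤ) with ha
  have haN : ((a : ℤ) : ZMod N) = v := by rw [ha]; simp
  refine ⟨a, ?_, ?_⟩
  · refine ((ZMod.coe_int_isUnit_iff_isCoprime a N).1 ?_).symm
    rw [haN]
    exact v.isUnit
  · have hau : ((a : ℤ) : ZMod q) = ((u : ℤ) : ZMod q) := by
      rw [← hw, ← hv, ZMod.unitsMap_val, ← haN]
      rw [ZMod.cast_intCast hqN]
    rw [← ZMod.intCast_zmod_eq_zero_iff_dvd, Int.cast_sub, hau, sub_self]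

lemma crt_unit {M n N : ℕ} (hN : 0 < N) (hMn : Nat.Coprime M n) (hd : M * n ∣ N) {u₀ c : ℤ}
    (hu₀ : IsCoprime u₀ (M : ℤ)) (hc : IsCoprime c (n : ℤ)) :
    ∃ u : ℤ, IsCoprime u (N : ℤ) ∧ (n : ℤ) ∣ u - c ∧ (M : ℤ) ∣ u - u₀ := by
  obtain ⟨s, t, hst⟩ : IsCoprime (M : ℤ) (n : ℤ) := Nat.isCoprime_iff_coprime.2 hMn
  set u₁ : ℤ := c * (s * M) + u₀ * (t * n) with hu₁
  have h1 : u₁ = c + n * (t * (u₀ - c)) := by rw [hu₁]; linear_combination c * hst
  have h2 : u₁ = u₀ + M * (s * (c - u₀)) := by rw [hu₁]; linear_combination u₀ * hst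
  have h3 : IsCoprime u₁ (n : ℤ) := by rw [h1]; exact IsCoprime.add_mul_left_left hc _
  have h4 : IsCoprime u₁ (M : ℤ) := by rw [h2]; exact IsCoprime.add_mul_left_left hu₀ _
  obtain ⟨u, hu, hdu⟩ := lift_unit hN hd u₁ (by push_cast; exact IsCoprime.mul_right h4 h3)
  push_cast at hdu
  refine ⟨u, hu, ?_, ?_⟩
  · have h5 : (n : ℤ) ∣ u - u₁ := (Dvd.intro_left _ rfl).trans hdu
    have h6 : u - c = (u - u₁) + n * (t * (u₀ - c)) := by rw [h1]; ring
    rw [h6]
    exact dvd_add h5 (dvd_mul_right _ _)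
  · have h5 : (M : ℤ) ∣ u - u₁ := (Dvd.intro _ rfl).trans hdu
    have h6 : u - u₀ = (u - u₁) + M * (s * (c - u₀)) := by rw [h2]; ring
    rw [h6]
    exact dvd_add h5 (dvd_mul_right _ _)

/-- A unit multiple in the middle. -/
lemma exists_mid_mult {M : ℕ} (hM : 0 < M) {f : ℤ} (hf : ¬ (M : ℤ) ∣ f) :
    ∃ u₀ : ℤ, IsCoprime u₀ (M : ℤ) ∧ (M : ℤ) ≤ 6 * ((u₀ * f) % M) ∧ 6 * ((u₀ * f) % M) ≤ 5 * M := by
  have hMz : (0 : ℤ) < M := by exact_mod_cast hM
  set d := Int.gcd f M with hd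
  have hd0 : 0 < d := Int.gcd_pos_of_ne_zero_right _ hMz.ne'
  have hdz : (0 : ℤ) < d := by exact_mod_cast hd0
  obtain ⟨f', hf'⟩ : (d : ℤ) ∣ f := Int.gcd_dvd_left ..
  obtain ⟨m, hm⟩ : d ∣ M := by
    have : (d : ℤ) ∣ M := Int.gcd_dvd_right ..
    exact_mod_cast this
  have hmz : (M : ℤ) = d * m := by exact_mod_cast hm
  have hcop : IsCoprime f' (m : ℤ) := by
    rw [Int.isCoprime_iff_gcd_eq_one]
    have h1 : d * Int.gcd f' m = d := by
      have h2 : Int.gcd (d * f') (d * m) = d * Int.gcd f' m := by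
        rw [Int.gcd_mul_left]; simp
      rw [← h2, ← hf', ← hmz]
    exact Nat.eq_of_mul_eq_mul_left hd0 (by rw [h1, mul_one])
  have hm2 : 2 ≤ m := by
    rcases Nat.lt_or_ge m 2 with h | h
    · exfalso
      interval_cases m
      · simp at hm; omega
      · apply hf
        rw [hmz, hf']
        exact ⟨f', by push_cast; ring⟩
    · exact h
  obtain ⟨t, ht, ht1, ht2⟩ := exists_middle hm2
  obtain ⟨s, w, hsw⟩ := hcop
  have hs : IsCoprime s (m : ℤ) := ⟨f', w, by linear_combination hsw⟩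
  have hts : IsCoprime ((t : ℤ) * s) (m : ℤ) :=
    IsCoprime.mul_left (Nat.isCoprime_iff_coprime.2 ht) hs
  obtain ⟨u₀, hu₀, j, hj⟩ := lift_unit hM (Dvd.intro_left d hm.symm) _ hts
  have hmod : (u₀ * f) % (M : ℤ) = d * t := by
    have h1 : (M : ℤ) ∣ u₀ * f - d * t := by
      refine ⟨j * f' - t * w, ?_⟩
      rw [hf', hmz]
      linear_combination (d : ℤ) * f' * hj + (d : ℤ) * t * hsw
    have h2 : (u₀ * f) % (M : ℤ) = (d * t) % M :=
      Int.emod_eq_emod_iff_emod_sub_eq_zero.2 (Int.emod_eq_zero_of_dvd h1)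
    rw [h2]
    apply Int.emod_eq_of_lt (by positivity)
    rw [hmz]
    exact mul_lt_mul_of_pos_left (by omega) hdz
  refine ⟨u₀, hu₀, ?_, ?_⟩
  · rw [hmod, hmz]
    have : (d : ℤ) * m ≤ d * (6 * t) := mul_le_mul_of_nonneg_left (by exact_mod_cast ht1) hdz.le
    linarith
  · rw [hmod, hmz]
    have : (d : ℤ) * (6 * t) ≤ d * (5 * m) :=
      mul_le_mul_of_nonneg_left (by exact_mod_cast ht2) hdz.le
    linarith

lemma sum_fin3 {x y z : Fin 3} (hxy : x ≠ y) (hyz : y ≠ z) (hxz : x ≠ z) {A : Type*}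
    [AddCommMonoid A] (f : Fin 3 → A) : ∑ w, f w = f x + f y + f z := by
  have hun : (univ : Finset (Fin 3)) = {x, y, z} := by
    symm
    rw [← card_eq_iff_eq_univ, Fintype.card_fin, card_eq_three]
    exact ⟨x, y, z, hxy, hxz, hyz, rfl⟩
  rw [hun, sum_insert (by simp [hxy, hxz]), sum_insert (by simpa using hyz), sum_singleton,
    add_assoc]

/-- A cluster is inside its arc. -/
lemma cluster_inside (hN : 0 < N) {E : Fin r → ℤ} {k : Fin r} {u v w T : ℤ}
    (hvw : v * u + w * N = 1) (hT : 2 * T ≤ N)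
    (hcl : ∀ l, ∃ e : ℤ, |e| < T ∧ (N : ℤ) ∣ u * (E l - E k) - e) :
    (univ.filter fun l => 2 * T < (u * (E l - (E k - v * T))) % (N : ℤ)).card = 0 := by
  have hNz : (0 : ℤ) < N := by exact_mod_cast hN
  rw [card_eq_zero, filter_eq_empty_iff]
  intro l _ hl
  obtain ⟨e, he, q, hq⟩ := hcl l
  have h1 : u * (E l - (E k - v * T)) = (e + T) + N * (q - w * T) := by
    linear_combination hq + T * hvw
  have he' := abs_lt.1 he
  rw [h1, Int.add_mul_emod_self_left, Int.emod_eq_of_lt (by linarith) (by linarith)] at hl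
  linarith

/-- A cluster is in the interior of its arc. -/
lemma cluster_strict {E : Fin r → ℤ} {k : Fin r} {u v w T : ℤ}
    (hvw : v * u + w * N = 1) (hT : 2 * T ≤ N)
    (hcl : ∀ l, ∃ e : ℤ, |e| < T ∧ (N : ℤ) ∣ u * (E l - E k) - e) (l : Fin r) :
    0 < (u * (E l - (E k - v * T))) % (N : ℤ) ∧ (u * (E l - (E k - v * T))) % (N : ℤ) < 2 * T := by
  obtain ⟨e, he, q, hq⟩ := hcl l
  have h1 : u * (E l - (E k - v * T)) = (e + T) + N * (q - w * T) := by
    linear_combination hq + T * hvw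
  have he' := abs_lt.1 he
  rw [h1, Int.add_mul_emod_self_left, Int.emod_eq_of_lt (by linarith) (by linarith)]
  constructor <;> linarith

/-- Counting residues. -/
lemma card_res (hN : 0 < N) (b s : ℤ) (hs : s = 1 ∨ s = -1) :
    ((range N).filter fun q : ℕ => (N : ℤ) ∣ b + s * q).card = 1 := by
  have hNz : (0 : ℤ) < N := by exact_mod_cast hN
  rw [card_eq_one]
  have h0 := Int.emod_nonneg (-(s * b)) hNz.ne'
  have h1 := Int.emod_lt_of_pos (-(s * b)) hNz
  have hss : s * s = 1 := by rcases hs with rfl | rfl <;> norm_num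
  refine ⟨((-(s * b)) % (N : ℤ)).toNat, ?_⟩
  obtain ⟨q0, hq0⟩ : (N : ℤ) ∣ -(s * b) - (-(s * b)) % N := Int.dvd_self_sub_emod
  ext q
  rw [mem_filter, mem_range, mem_singleton]
  constructor
  · rintro ⟨hq, hd⟩
    have h2 : (N : ℤ) ∣ q - (-(s * b)) % N := by
      have h3 : (q : ℤ) - (-(s * b)) % N = s * (b + s * q) + (-(s * b) - (-(s * b)) % N) := by
        linear_combination (-(q : ℤ)) * hss
      rw [h3]
      exact dvd_add (hd.mul_left s) ⟨q0, hq0⟩
    have h4 : |(q : ℤ) - (-(s * b)) % N| < N := by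
      rw [abs_lt]; constructor <;> omega
    have h5 := Int.eq_zero_of_abs_lt_dvd h2 h4
    omega
  · intro hq
    rw [hq]
    refine ⟨by omega, ?_⟩
    rw [Int.toNat_of_nonneg h0]
    refine ⟨-(s * q0), ?_⟩
    linear_combination (-s) * hq0 + (-b) * hss

/-- A family of residues which is dominated by another one. -/
lemma counts_eq (hN : 0 < N) {e f : Fin r → ℤ} {c : ℤ}
    (h : ∀ i, (univ.filter fun l => (N : ℤ) ∣ e l - e i).card ≤
      (univ.filter fun l => (N : ℤ) ∣ f l + e i - c).card) (q : ℤ) :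
    (univ.filter fun l => (N : ℤ) ∣ e l - q).card =
      (univ.filter fun l => (N : ℤ) ∣ f l + q - c).card := by
  classical
  have hle : ∀ q : ℤ, (univ.filter fun l => (N : ℤ) ∣ e l - q).card ≤
      (univ.filter fun l => (N : ℤ) ∣ f l + q - c).card := by
    intro q
    rcases (univ.filter fun l => (N : ℤ) ∣ e l - q).eq_empty_or_nonempty with h0 | ⟨i, hi⟩
    · rw [h0]; simp
    · rw [mem_filter] at hi
      have h1 : (univ.filter fun l => (N : ℤ) ∣ e l - q) =
          (univ.filter fun l => (N : ℤ) ∣ e l - e i) := by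
        refine filter_congr fun l _ => ?_
        have : e l - q = (e l - e i) + (e i - q) := by ring
        rw [this]
        exact (Int.dvd_add_left hi.2)
      have h2 : (univ.filter fun l => (N : ℤ) ∣ f l + q - c) =
          (univ.filter fun l => (N : ℤ) ∣ f l + e i - c) := by
        refine filter_congr fun l _ => ?_
        have : f l + e i - c = (f l + q - c) + (e i - q) := by ring
        rw [this]
        exact (Int.dvd_add_left hi.2).symm
      rw [h1, h2]
      exact h i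
  have hsum : ∀ (g : Fin r → ℤ) (s : ℤ) (_ : s = 1 ∨ s = -1),
      ∑ q ∈ range N, (univ.filter fun l => (N : ℤ) ∣ g l + s * (q : ℕ)).card = r := by
    intro g s hs
    have h1 : ∀ q ∈ range N, (univ.filter fun l => (N : ℤ) ∣ g l + s * (q : ℕ)).card =
        ∑ l : Fin r, if (N : ℤ) ∣ g l + s * (q : ℕ) then 1 else 0 := fun q _ => by
      rw [card_filter]
    rw [sum_congr rfl h1, sum_comm]
    have h2 : ∀ l ∈ (univ : Finset (Fin r)),
        ∑ q ∈ range N, (if (N : ℤ) ∣ g l + s * (q : ℕ) then 1 else 0) = 1 := fun l _ => by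
      rw [← card_filter]
      exact card_res hN _ _ hs
    rw [sum_congr rfl h2]
    simp
  have hA : ∑ q ∈ range N, (univ.filter fun l => (N : ℤ) ∣ e l - (q : ℕ)).card = r := by
    refine Eq.trans (sum_congr rfl fun q _ => ?_) (hsum e (-1) (Or.inr rfl))
    congr 1
    refine filter_congr fun l _ => ?_
    rw [show e l - (q : ℤ) = e l + -1 * (q : ℤ) by ring]
  have hB : ∑ q ∈ range N, (univ.filter fun l => (N : ℤ) ∣ f l + (q : ℕ) - c).card = r := by
    refine Eq.trans (sum_congr rfl fun q _ => ?_) (hsum (fun l => f l - c) 1 (Or.inl rfl))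
    congr 1
    refine filter_congr fun l _ => ?_
    rw [show f l + (q : ℤ) - c = f l - c + 1 * (q : ℤ) by ring]
  have heq := (sum_eq_sum_iff_of_le (fun (q : ℕ) (_ : q ∈ range N) => hle (q : ℤ))).1
    (hA.trans hB.symm)
  have hNz : (0 : ℤ) < N := by exact_mod_cast hN
  have h0 := Int.emod_nonneg q hNz.ne'
  have h1 := Int.emod_lt_of_pos q hNz
  have h2 := heq (q % (N : ℤ)).toNat (mem_range.2 (by omega))
  rw [Int.toNat_of_nonneg h0] at h2
  obtain ⟨j, hj⟩ : (N : ℤ) ∣ q - q % N := Int.dvd_self_sub_emod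
  have h3 : (univ.filter fun l => (N : ℤ) ∣ e l - q) =
      (univ.filter fun l => (N : ℤ) ∣ e l - q % N) := by
    refine filter_congr fun l _ => ?_
    have : e l - q % N = (e l - q) + (q - q % N) := by ring
    rw [this]
    exact (Int.dvd_add_left ⟨j, hj⟩).symm
  have h4 : (univ.filter fun l => (N : ℤ) ∣ f l + q - c) =
      (univ.filter fun l => (N : ℤ) ∣ f l + q % N - c) := by
    refine filter_congr fun l _ => ?_
    have : f l + q - c = (f l + q % N - c) + (q - q % N) := by ring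
    rw [this]
    exact (Int.dvd_add_left ⟨j, hj⟩)
  rw [h3, h4]
  exact h2

section main

variable {E : Fin 3 → Fin r → ℤ} {x y z : Fin 3} {M n : ℕ}

/-- The exponents at `z` are close to each other, the others have a small denominator. -/
lemma one_core (hN : 0 < N) (k : Fin r) (h : Arcs N E) (hxy : x ≠ y) (hyz : y ≠ z)
    (hxz : x ≠ z) (hM : 0 < M) {T : ℤ} (hNT : (N : ℤ) = 2 * M * T) (hT0 : 0 < T)
    (hx : ∀ l l', (N : ℤ) ∣ M * (E x l - E x l')) (hy : ∀ l l', (N : ℤ) ∣ M * (E y l - E y l'))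
    {u v w : ℤ} (hvw : v * u + w * N = 1)
    (hclz : ∀ l, ∃ e : ℤ, |e| < T ∧ (N : ℤ) ∣ u * (E z l - E z k) - e) :
    ∃ l₀, (N : ℤ) - 2 * T < (u * (E y l₀ - (-(E x k + (E z k - v * T))))) % N ∧
      ∀ q : ℤ, (univ.filter fun l => (N : ℤ) ∣ E x l - q).card =
        (univ.filter fun l => (N : ℤ) ∣ E y l + q - (E y l₀ + E x k)).card := by
  classical
  have hNz : (0 : ℤ) < N := by exact_mod_cast hN
  have hMz : (0 : ℤ) < M := by exact_mod_cast hM
  have hT2 : 2 * T ≤ N := by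
    rw [hNT]
    have h1 : (1 : ℤ) * (2 * T) ≤ M * (2 * T) := by
      apply mul_le_mul_of_nonneg_right (by omega) (by linarith)
    linarith
  have hu : IsCoprime u (N : ℤ) := ⟨v, w, hvw⟩
  -- the residues at `y`
  set P : Fin r → Fin r → Prop := fun i l =>
    (N : ℤ) - 2 * T < (u * (E y l - (-(E x i + (E z k - v * T))))) % N with hP
  have hPP : ∀ i l i' l', P i l → P i' l' → (N : ℤ) ∣ E y l + E x i - (E y l' + E x i') := by
    intro i l i' l' h1 h2
    simp only [hP] at h1 h2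
    set A := u * (E y l - (-(E x i + (E z k - v * T)))) with hA
    set A' := u * (E y l' - (-(E x i' + (E z k - v * T)))) with hA'
    have a1 := Int.emod_lt_of_pos A hNz
    have a2 := Int.emod_lt_of_pos A' hNz
    obtain ⟨q, hq⟩ : (N : ℤ) ∣ A - A % N := Int.dvd_self_sub_emod
    obtain ⟨q', hq'⟩ : (N : ℤ) ∣ A' - A' % N := Int.dvd_self_sub_emod
    obtain ⟨j, hj⟩ := hy l l'
    obtain ⟨j', hj'⟩ := hx i i'
    have h3 : (N : ℤ) ∣ M * (A % N - A' % N) := by
      refine ⟨u * j + u * j' - M * q + M * q', ?_⟩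
      have e1 : A - A' = u * (E y l - E y l') + u * (E x i - E x i') := by rw [hA, hA']; ring
      linear_combination (M : ℤ) * e1 - (M : ℤ) * hq + (M : ℤ) * hq' + u * hj + u * hj'
    have h4 : |(M : ℤ) * (A % N - A' % N)| < N := by
      rw [abs_mul, abs_of_pos hMz]
      have h5 : |A % (N : ℤ) - A' % N| < 2 * T := by
        rw [abs_lt]; constructor <;> linarith
      calc (M : ℤ) * |A % (N : ℤ) - A' % N| < M * (2 * T) := mul_lt_mul_of_pos_left h5 hMz
        _ = N := by rw [hNT]; ring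
    have h5 := Int.eq_zero_of_abs_lt_dvd h3 h4
    have h6 : A % (N : ℤ) - A' % N = 0 := (mul_eq_zero.1 h5).resolve_left hMz.ne'
    have h7 : (N : ℤ) ∣ u * (E y l + E x i - (E y l' + E x i')) := by
      refine ⟨q - q', ?_⟩
      have e1 : A - A' = u * (E y l + E x i - (E y l' + E x i')) := by rw [hA, hA']; ring
      linear_combination -e1 + hq - hq' + h6
    exact IsCoprime.dvd_of_dvd_mul_left hu.symm h7
  have hcount : ∀ i, (univ.filter fun l => (N : ℤ) ∣ E x l - E x i).card ≤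
      (univ.filter fun l => P i l).card := by
    intro i
    set β : Fin 3 → ℤ := fun w => if w = x then E x i else if w = y then
      -(E x i + (E z k - v * T)) else E z k - v * T with hβ
    set γ : Fin 3 → ℤ := fun w => if w = x then 0 else if w = y then N - 2 * T else 2 * T with hγ
    have bx : β x = E x i := by simp [hβ]
    have by' : β y = -(E x i + (E z k - v * T)) := by simp [hβ, hxy.symm]
    have bz : β z = E z k - v * T := by simp [hβ, hxz.symm, hyz.symm]
    have gx : γ x = 0 := by simp [hγ]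
    have gy : γ y = N - 2 * T := by simp [hγ, hxy.symm]
    have gz : γ z = 2 * T := by simp [hγ, hxz.symm, hyz.symm]
    have key := h β (by rw [sum_fin3 hxy hyz hxz, bx, by', bz]; exact ⟨0, by ring⟩) u hu γ
      (fun w => by
        simp only [hγ]
        split_ifs <;> linarith) (by rw [sum_fin3 hxy hyz hxz, gx, gy, gz]; ring)
      z (fun l => by rw [gz, bz]; exact cluster_strict hvw hT2 hclz l)
    rw [sum_fin3 hxy hyz hxz, gx, gy, gz, bx, by', bz, cluster_inside hN hvw hT2 hclz,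
      add_zero] at key
    have h1 : (univ.filter fun l => (N : ℤ) ∣ E x l - E x i).card +
        (univ.filter fun l => 0 < (u * (E x l - E x i)) % (N : ℤ)).card ≤ r := by
      rw [← card_union_of_disjoint]
      · exact (card_le_univ _).trans (by simp)
      · rw [disjoint_filter]
        intro l _ hl hl'
        rw [Int.emod_eq_zero_of_dvd (hl.mul_left u)] at hl'
        exact lt_irrefl _ hl'
    simp only [hP]
    omega
  obtain ⟨l₀, hl₀⟩ : ∃ l, P k l := by
    have h1 : 0 < (univ.filter fun l => (N : ℤ) ∣ E x l - E x k).card :=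
      card_pos.2 ⟨k, mem_filter.2 ⟨mem_univ _, by simp⟩⟩
    obtain ⟨l, hl⟩ := card_pos.1 (lt_of_lt_of_le h1 (hcount k))
    exact ⟨l, (mem_filter.1 hl).2⟩
  refine ⟨l₀, hl₀, fun q => counts_eq hN (fun i => (hcount i).trans (card_le_card ?_)) q⟩
  intro l hl
  rw [mem_filter] at hl ⊢
  exact ⟨mem_univ _, hPP i l k l₀ hl.2 hl₀⟩

/-- **One point with large primes.** -/
theorem one_large (hN : 0 < N) (k : Fin r) (h : Arcs N E) (hxy : x ≠ y) (hyz : y ≠ z)
    (hxz : x ≠ z) (hM : 0 < M) (hn : 0 < n) (hMn : Nat.Coprime M n) (hd : 2 * M * n ∣ N)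
    (hx : ∀ l l', (N : ℤ) ∣ M * (E x l - E x l')) (hy : ∀ l l', (N : ℤ) ∣ M * (E y l - E y l'))
    (hz : ∀ l l', (N : ℤ) ∣ n * (E z l - E z l'))
    (hS : (∑ p ∈ n.primeFactors, (1 : ℚ) / p) * (2 * M : ℚ) ^ (cls N (E z) - 1) < 1) :
    ∃ c : ℤ, ∀ q : ℤ, (univ.filter fun l => (N : ℤ) ∣ E x l - q).card =
      (univ.filter fun l => (N : ℤ) ∣ E y l + q - c).card := by
  classical
  have hNz : (0 : ℤ) < N := by exact_mod_cast hN
  have hMz : (0 : ℤ) < M := by exact_mod_cast hM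
  obtain ⟨T', hT'⟩ := hd
  set T : ℤ := (n : ℤ) * T' with hT
  have hNT : (N : ℤ) = 2 * M * T := by rw [hT', hT]; push_cast; ring
  have hT0 : 0 < T := by
    by_contra h0
    push Not at h0
    have : (2 * M : ℤ) * T ≤ 0 := mul_nonpos_of_nonneg_of_nonpos (by positivity) h0
    linarith
  obtain ⟨c, hc, hcl⟩ := exists_cluster (K := 2 * M) hN hn
    ((Dvd.intro_left (2 * M) rfl).trans (Dvd.intro _ hT'.symm)) (by omega) k {z}
    (fun w hw l => by rw [mem_singleton] at hw; rw [hw]; exact hz l k) (by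
      rw [sum_singleton]; push_cast; exact hS)
  obtain ⟨u, hu, hun, -⟩ := crt_unit (u₀ := 1) hN hMn (by
    rw [hT']; exact ⟨2 * T', by ring⟩) isCoprime_one_left hc
  obtain ⟨v, w, hvw⟩ := hu
  have hclz : ∀ l, ∃ e : ℤ, |e| < T ∧ (N : ℤ) ∣ u * (E z l - E z k) - e := by
    intro l
    obtain ⟨e, he, hd⟩ := hcl u hun z (mem_singleton_self z) l
    refine ⟨e, ?_, hd⟩
    push_cast at he
    rw [hNT] at he
    have h2 : (2 * M : ℤ) * |e| < 2 * M * T := by linarith
    exact lt_of_mul_lt_mul_left h2 (by positivity)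
  obtain ⟨l₀, -, h0⟩ := one_core hN k h hxy hyz hxz hM hNT hT0 hx hy hvw hclz
  exact ⟨_, h0⟩

/-- **One point with large primes, the sums of three exponents.** -/
theorem one_twisted (hN : 0 < N) (k : Fin r) (h : Arcs N E) (hxy : x ≠ y) (hyz : y ≠ z)
    (hxz : x ≠ z) (hM : 0 < M) (hn : 0 < n) (hMn : Nat.Coprime M n) (hd : 2 * M * n ∣ N)
    (hx : ∀ l l', (N : ℤ) ∣ M * (E x l - E x l')) (hy : ∀ l l', (N : ℤ) ∣ M * (E y l - E y l'))
    (hz : ∀ l l', (N : ℤ) ∣ n * (E z l - E z l'))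
    (hs : (N : ℤ) ∣ M * n * (E x k + E y k + E z k))
    (hS : (∑ p ∈ n.primeFactors, (1 : ℚ) / p) * (2 * M : ℚ) ^ (cls N (E z) - 1 + 1) < 1) :
    ∃ c : ℤ, (N : ℤ) ∣ n * (E z k + c) ∧
      ∀ q : ℤ, (univ.filter fun l => (N : ℤ) ∣ E x l - q).card =
      (univ.filter fun l => (N : ℤ) ∣ E y l + q - c).card := by
  classical
  have hNz : (0 : ℤ) < N := by exact_mod_cast hN
  have hMz : (0 : ℤ) < M := by exact_mod_cast hM
  have hnz : (0 : ℤ) < n := by exact_mod_cast hn
  obtain ⟨T', hT'⟩ := hd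
  set T : ℤ := (n : ℤ) * T' with hT
  have hNT : (N : ℤ) = 2 * M * T := by rw [hT', hT]; push_cast; ring
  have hT0 : 0 < T := by
    by_contra h0
    push Not at h0
    have : (2 * M : ℤ) * T ≤ 0 := mul_nonpos_of_nonneg_of_nonpos (by positivity) h0
    linarith
  have hNN : (N : ℤ) = M * n * (2 * T') := by rw [hT']; push_cast; ring
  obtain ⟨i₁, i₂, hi⟩ : IsCoprime (M : ℤ) (n : ℤ) := Nat.isCoprime_iff_coprime.2 hMn
  obtain ⟨s, hs0⟩ := hs
  set g : ℤ := i₁ * s with hg
  set N1 : ℤ := M * (2 * T') with hN1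
  set N2 : ℤ := n * (2 * T') with hN2
  have hNN1 : (N : ℤ) = n * N1 := by rw [hNN, hN1]; ring
  have hNN2 : (N : ℤ) = M * N2 := by rw [hNN, hN2]; ring
  have hN20 : 0 < N2 := by
    by_contra h0
    push Not at h0
    have : (M : ℤ) * N2 ≤ 0 := mul_nonpos_of_nonneg_of_nonpos hMz.le h0
    linarith
  have hDk : E x k + E y k + E z k = N2 * (i₂ * s) + N1 * g := by
    have h1 : (M * n : ℤ) * (E x k + E y k + E z k) = M * n * (N2 * (i₂ * s) + N1 * g) := by
      rw [hs0, hNN, hN2, hN1, hg]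
      linear_combination (-(M * n * (2 * T') * s : ℤ)) * hi
    exact mul_left_cancel₀ (mul_ne_zero hMz.ne' hnz.ne') h1
  let E' : Fin 3 → Fin (r + 1) → ℤ := fun w =>
    if w = x then Fin.cons (N1 * g) (fun _ => 0) else Fin.cons (E w k) (E w)
  have hE'x : ∀ j, E' x j = (Fin.cons (N1 * g) (fun _ => 0) : Fin (r + 1) → ℤ) j := by
    intro j; simp only [E', if_pos rfl]
  have hE'w : ∀ w, w ≠ x → ∀ j, E' w j = (Fin.cons (E w k) (E w) : Fin (r + 1) → ℤ) j := by
    intro w hw j; simp only [E', if_neg hw]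
  set k' : Fin (r + 1) := Fin.succ k with hk'
  have hclsx : cls N (E' x) ≤ 2 := by
    unfold cls
    have h1 : (univ.image fun l => E' x l % (N : ℤ)) ⊆ {N1 * g % N, 0} := by
      intro a ha
      obtain ⟨l, -, rfl⟩ := mem_image.1 ha
      rw [mem_insert, mem_singleton, hE'x]
      refine Fin.cases ?_ (fun j => ?_) l
      · left; simp
      · right; simp
    exact (card_le_card h1).trans (card_le_two)
  have hclsw : cls N (E' z) ≤ cls N (E z) := by
    unfold cls
    apply card_le_card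
    intro a ha
    obtain ⟨l, -, rfl⟩ := mem_image.1 ha
    rw [mem_image, hE'w z hxz.symm]
    refine Fin.cases ?_ (fun j => ?_) l
    · exact ⟨k, mem_univ _, by simp⟩
    · exact ⟨j, mem_univ _, by simp⟩
  obtain ⟨c, hc, hcl⟩ := exists_cluster (K := 2 * M) (E := E') hN hn
    ((Dvd.intro_left (2 * M) rfl).trans (Dvd.intro _ hT'.symm)) (by omega) k' {x, z}
    (fun w hw l => by
      rw [mem_insert, mem_singleton] at hw
      rcases hw with hw | hw
      · rw [hw, hE'x, hE'x, hk', Fin.cons_succ, sub_zero]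
        refine Fin.cases ?_ (fun j => ?_) l
        · rw [Fin.cons_zero, hNN1]
          exact ⟨g, by ring⟩
        · simp
      · rw [hw, hE'w z hxz.symm, hE'w z hxz.symm, hk', Fin.cons_succ]
        refine Fin.cases ?_ (fun j => ?_) l
        · rw [Fin.cons_zero]; exact hz k k
        · rw [Fin.cons_succ]; exact hz j k) (by
      rw [sum_pair hxz]
      refine lt_of_le_of_lt (mul_le_mul_of_nonneg_left (?_ : _ ≤ (2 * M : ℚ) ^
        (cls N (E z) - 1 + 1)) (sum_nonneg fun p _ => by positivity)) hS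
      push_cast
      have hM1 : (1 : ℚ) ≤ M := by exact_mod_cast hM
      refine pow_le_pow_right₀ (by linarith) ?_
      omega)
  obtain ⟨u, hu, hun, -⟩ := crt_unit (u₀ := 1) hN hMn (by
    rw [hT']; exact ⟨2 * T', by ring⟩) isCoprime_one_left hc
  obtain ⟨v, w, hvw⟩ := hu
  have hcl' : ∀ w ∈ ({x, z} : Finset (Fin 3)), ∀ l, ∃ e : ℤ, |e| < T ∧
      (N : ℤ) ∣ u * (E' w l - E' w k') - e := by
    intro w hw l
    obtain ⟨e, he, hd⟩ := hcl u hun w hw l
    refine ⟨e, ?_, hd⟩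
    push_cast at he
    rw [hNT] at he
    have h2 : (2 * M : ℤ) * |e| < 2 * M * T := by linarith
    exact lt_of_mul_lt_mul_left h2 (by positivity)
  have hclz : ∀ l, ∃ e : ℤ, |e| < T ∧ (N : ℤ) ∣ u * (E z l - E z k) - e := by
    intro l
    have := hcl' z (by simp) (Fin.succ l)
    rwa [hE'w z hxz.symm, hE'w z hxz.symm, hk', Fin.cons_succ, Fin.cons_succ] at this
  obtain ⟨e₀, he₀, hde₀⟩ := hcl' x (by simp) 0
  rw [hE'x, hE'x, hk', Fin.cons_succ, Fin.cons_zero, sub_zero] at hde₀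
  obtain ⟨l₀, hP, h0⟩ := one_core hN k h hxy hyz hxz hM hNT hT0 hx hy hvw hclz
  refine ⟨_, ?_, h0⟩
  -- the sum of the exponents
  obtain ⟨j, hj⟩ := hy l₀ k
  have hDj : E y l₀ - E y k = N2 * j := by
    have h1 : (M : ℤ) * (E y l₀ - E y k) = M * (N2 * j) := by rw [hj, hNN2]; ring
    exact mul_left_cancel₀ hMz.ne' h1
  set f : ℤ := i₂ * s + j with hf
  have hσ : E z k + (E y l₀ + E x k) = N2 * f + N1 * g := by
    rw [hf]; linear_combination hDk + hDj
  set A := u * (E y l₀ - (-(E x k + (E z k - v * T)))) with hA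
  have a1 := Int.emod_lt_of_pos A hNz
  obtain ⟨q, hq⟩ : (N : ℤ) ∣ A - A % N := Int.dvd_self_sub_emod
  obtain ⟨q₀, hq₀⟩ := hde₀
  have e1 : A = N2 * (u * f) + u * (N1 * g) - T * (u * v) := by
    have h1 : A = u * (E z k + (E y l₀ + E x k)) - T * (u * v) := by rw [hA]; ring
    rw [h1, hσ]; ring
  have hMf : (M : ℤ) ∣ u * f := by
    have h1 : (N : ℤ) ∣ A % N + T - e₀ - N2 * (u * f) := by
      refine ⟨-q + q₀ + T * w, ?_⟩
      have hvw' : u * v = 1 - w * N := by linarith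
      rw [hvw'] at e1
      linear_combination (-1 : ℤ) * hq + e1 + hq₀
    have h2 : N2 ∣ A % N + T - e₀ := by
      have h3 : N2 ∣ (N : ℤ) := ⟨M, by rw [hNN2]; ring⟩
      have h4 := (h3.trans h1).add (dvd_mul_right N2 (u * f))
      rwa [sub_add_cancel] at h4
    have he := abs_lt.1 he₀
    have hN2T : N2 = 2 * T := by
      have : (M : ℤ) * N2 = M * (2 * T) := by rw [← hNN2, hNT]; ring
      exact mul_left_cancel₀ hMz.ne' this
    have h5 : A % N + T - e₀ = N := by
      have h6 : N2 ∣ A % N + T - e₀ - N := h2.sub ⟨M, by rw [hNN2]; ring⟩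
      have h7 : |A % (N : ℤ) + T - e₀ - N| < N2 := by
        rw [hN2T, abs_lt]; constructor <;> linarith
      have h8 := Int.eq_zero_of_abs_lt_dvd h6 h7
      linarith
    rw [h5] at h1
    obtain ⟨q', hq'⟩ := h1
    refine ⟨1 - q', ?_⟩
    have h6 : N2 * (u * f) = N2 * (M * (1 - q')) := by
      rw [hNN2] at hq'
      linarith
    exact mul_left_cancel₀ hN20.ne' h6
  have hcop : IsCoprime u (M : ℤ) := by
    have h1 : IsCoprime u (N : ℤ) := ⟨v, w, hvw⟩
    exact IsCoprime.of_isCoprime_of_dvd_right h1 ⟨N2, hNN2⟩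
  obtain ⟨f', hf'⟩ := IsCoprime.dvd_of_dvd_mul_left hcop.symm hMf
  refine ⟨n * f' + g, ?_⟩
  rw [hσ, hf', hNN1]
  have : N2 * M = n * N1 := by rw [← hNN1, hNN2]; ring
  linear_combination (n : ℤ) * f' * this

/-- **Two points with large primes.** -/
theorem two_large (hN : 0 < N) (hr : 0 < r) (h : Arcs N E) (hxy : x ≠ y) (hyz : y ≠ z)
    (hxz : x ≠ z) (hM : 0 < M) (hn : 0 < n) (hMn : Nat.Coprime M n) (hd : 24 * M * n ∣ N)
    (hx : ∀ l l', (N : ℤ) ∣ M * (E x l - E x l')) (hx' : ∃ l l', ¬ (N : ℤ) ∣ E x l - E x l')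
    (hy : ∀ l l', (N : ℤ) ∣ n * (E y l - E y l')) (hz : ∀ l l', (N : ℤ) ∣ n * (E z l - E z l'))
    (hS : (∑ p ∈ n.primeFactors, (1 : ℚ) / p) *
      24 ^ ((cls N (E y) - 1) + (cls N (E z) - 1)) < 1) : False := by
  classical
  set k : Fin r := ⟨0, hr⟩
  have hNz : (0 : ℤ) < N := by exact_mod_cast hN
  have hMz : (0 : ℤ) < M := by exact_mod_cast hM
  obtain ⟨T', hT'⟩ := hd
  set T : ℤ := (M : ℤ) * n * T' with hT
  have hNT : (N : ℤ) = 24 * T := by rw [hT', hT]; push_cast; ring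
  have hT0 : 0 < T := by linarith
  obtain ⟨l₁, l₂, hl⟩ := hx'
  -- the difference
  obtain ⟨f, hf⟩ := hx l₁ l₂
  set N1 : ℤ := 24 * n * T' with hN1
  have hNN1 : (N : ℤ) = M * N1 := by rw [hT', hN1]; push_cast; ring
  have hN10 : 0 < N1 := by
    by_contra h0
    push Not at h0
    have : (M : ℤ) * N1 ≤ 0 := mul_nonpos_of_nonneg_of_nonpos hMz.le h0
    linarith
  have hD : E x l₁ - E x l₂ = N1 * f := by
    have h1 : (M : ℤ) * (E x l₁ - E x l₂) = M * (N1 * f) := by rw [hf, hNN1]; ring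
    exact mul_left_cancel₀ hMz.ne' h1
  have hMf : ¬ (M : ℤ) ∣ f := by
    rintro ⟨j, hj⟩
    exact hl ⟨j, by rw [hD, hj, hNN1]; ring⟩
  obtain ⟨u₀, hu₀, hm1, hm2⟩ := exists_mid_mult hM hMf
  have hne : y ≠ z := hyz
  obtain ⟨c, hc, hcl⟩ := exists_cluster (K := 24) (E := E) hN hn
    ((Dvd.intro_left (24 * M) rfl).trans (Dvd.intro _ hT'.symm)) (by norm_num) k {y, z}
    (fun w hw l => by
      rw [mem_insert, mem_singleton] at hw
      rcases hw with hw | hw
      · rw [hw]; exact hy l k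
      · rw [hw]; exact hz l k) (by
      rw [sum_pair hne]; push_cast; exact hS)
  obtain ⟨u, hu, hun, huM⟩ := crt_unit (u₀ := u₀) hN hMn (by
    rw [hT']; exact ⟨24 * T', by ring⟩) hu₀ hc
  obtain ⟨v, w, hvw⟩ := hu
  have hu : IsCoprime u (N : ℤ) := ⟨v, w, hvw⟩
  have hcl' : ∀ w ∈ ({y, z} : Finset (Fin 3)), ∀ l, ∃ e : ℤ, |e| < T ∧
      (N : ℤ) ∣ u * (E w l - E w k) - e := by
    intro w hw l
    obtain ⟨e, he, hd⟩ := hcl u hun w hw l
    refine ⟨e, ?_, hd⟩
    push_cast at he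
    rw [hNT] at he
    linarith
  set β : Fin 3 → ℤ := fun w => if w = x then -((E y k - v * T) + (E z k - v * T)) else
    if w = y then E y k - v * T else E z k - v * T with hβ
  set γ : Fin 3 → ℤ := fun w => if w = x then N - 4 * T else 2 * T with hγ
  have bx : β x = -((E y k - v * T) + (E z k - v * T)) := by simp [hβ]
  have by' : β y = E y k - v * T := by simp [hβ, hxy.symm]
  have bz : β z = E z k - v * T := by simp [hβ, hxz.symm, hyz.symm]
  have gx : γ x = N - 4 * T := by simp [hγ]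
  have gy : γ y = 2 * T := by simp [hγ, hxy.symm]
  have gz : γ z = 2 * T := by simp [hγ, hxz.symm]
  have key := h β (by rw [sum_fin3 hxy hyz hxz, bx, by', bz]; exact ⟨0, by ring⟩) u hu γ
    (fun w => by
      simp only [hγ]
      split_ifs <;> linarith) (by rw [sum_fin3 hxy hyz hxz, gx, gy, gz]; ring)
    z (fun l => by rw [gz, bz]; exact cluster_strict hvw (by linarith) (hcl' z (by simp)) l)
  rw [sum_fin3 hxy hyz hxz, gx, gy, gz, bx, by', bz,
    cluster_inside hN hvw (by linarith) (hcl' y (by simp)),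
    cluster_inside hN hvw (by linarith) (hcl' z (by simp)), add_zero, add_zero] at key
  set A : Fin r → ℤ := fun l => u * (E x l - -((E y k - v * T) + (E z k - v * T))) with hA
  have hall : ∀ l, (N : ℤ) - 4 * T < A l % N := by
    intro l
    have h1 : (univ.filter fun l => (N : ℤ) - 4 * T < A l % (N : ℤ)) = univ := by
      rw [← card_eq_iff_eq_univ, Fintype.card_fin]
      exact le_antisymm ((card_le_univ _).trans (by simp)) key
    have h2 : l ∈ (univ.filter fun l => (N : ℤ) - 4 * T < A l % (N : ℤ)) := by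
      rw [h1]; exact mem_univ l
    exact (mem_filter.1 h2).2
  have a1 := hall l₁
  have a2 := hall l₂
  have b1 := Int.emod_lt_of_pos (A l₁) hNz
  have b2 := Int.emod_lt_of_pos (A l₂) hNz
  obtain ⟨q, hq⟩ : (N : ℤ) ∣ A l₁ - A l₁ % N := Int.dvd_self_sub_emod
  obtain ⟨q', hq'⟩ : (N : ℤ) ∣ A l₂ - A l₂ % N := Int.dvd_self_sub_emod
  obtain ⟨j, hj⟩ := huM
  obtain ⟨i, hi⟩ : (M : ℤ) ∣ u₀ * f - (u₀ * f) % M := Int.dvd_self_sub_emod
  set t := (u₀ * f) % (M : ℤ) with ht
  have e1 : A l₁ - A l₂ = u * (N1 * f) := by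
    rw [← hD, hA]; ring
  -- `A l₁ % N - A l₂ % N = N1 * t + N * s`
  obtain ⟨s, hs⟩ : ∃ s : ℤ, A l₁ % N - A l₂ % N = N1 * t + N * s := by
    refine ⟨i + j * f - q + q', ?_⟩
    rw [hNN1] at hq hq' ⊢
    linear_combination e1 - hq + hq' + N1 * hi + N1 * f * hj
  have c1 : (N : ℤ) ≤ 6 * (N1 * t) := by
    have : N1 * (M : ℤ) ≤ N1 * (6 * t) := mul_le_mul_of_nonneg_left hm1 hN10.le
    linarith
  have c2 : 6 * (N1 * t) ≤ 5 * N := by
    have : N1 * (6 * t) ≤ N1 * (5 * (M : ℤ)) := mul_le_mul_of_nonneg_left hm2 hN10.le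
    linarith
  rcases lt_trichotomy s 0 with hs0 | hs0 | hs0
  · rcases eq_or_lt_of_le (Int.le_sub_one_of_lt hs0) with h1 | h1
    · have : s = -1 := by omega
      rw [this] at hs
      linarith
    · have : (N : ℤ) * s ≤ N * (-2) := mul_le_mul_of_nonneg_left (by omega) hNz.le
      linarith
  · rw [hs0] at hs
    linarith
  · have : (N : ℤ) * 1 ≤ N * s := mul_le_mul_of_nonneg_left (by omega) hNz.le
    linarith

/-- **Two points with large primes, the sums of three exponents.** -/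
theorem two_twisted (hN : 0 < N) (h : Arcs N E) (hxy : x ≠ y) (hyz : y ≠ z)
    (hxz : x ≠ z) (hM : 0 < M) (hn : 0 < n) (hMn : Nat.Coprime M n) (hd : 24 * M * n ∣ N)
    (hy : ∀ l l', (N : ℤ) ∣ n * (E y l - E y l')) (hz : ∀ l l', (N : ℤ) ∣ n * (E z l - E z l'))
    {k : Fin r} {l₁ : Fin r} (hs : (N : ℤ) ∣ M * n * (E x l₁ + E y k + E z k))
    (hs' : ¬ (N : ℤ) ∣ n * (E x l₁ + E y k + E z k))
    (hS : (∑ p ∈ n.primeFactors, (1 : ℚ) / p) *
      24 ^ ((cls N (E y) - 1) + (cls N (E z) - 1) + 1) < 1) : False := by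
  classical
  have hNz : (0 : ℤ) < N := by exact_mod_cast hN
  have hMz : (0 : ℤ) < M := by exact_mod_cast hM
  have hnz : (0 : ℤ) < n := by exact_mod_cast hn
  obtain ⟨T', hT'⟩ := hd
  set T : ℤ := (M : ℤ) * n * T' with hT
  have hNT : (N : ℤ) = 24 * T := by rw [hT', hT]; push_cast; ring
  have hT0 : 0 < T := by linarith
  have hT'0 : 0 < T' := by
    rcases Nat.eq_zero_or_pos T' with h0 | h0
    · rw [h0] at hT'; omega
    · exact h0
  have hT'z : (0 : ℤ) < T' := by exact_mod_cast hT'0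
  -- the sum of the three exponents
  obtain ⟨s, hs0⟩ := hs
  have hNN : (N : ℤ) = M * n * (24 * T') := by rw [hT']; push_cast; ring
  have hD : E x l₁ + E y k + E z k = 24 * T' * s := by
    have h1 : (M * n : ℤ) * (E x l₁ + E y k + E z k) = M * n * (24 * T' * s) := by
      rw [hs0, hNN]; ring
    exact mul_left_cancel₀ (mul_ne_zero hMz.ne' hnz.ne') h1
  have hMs : ¬ (M : ℤ) ∣ s := by
    rintro ⟨j, hj⟩
    exact hs' ⟨j, by rw [hD, hj, hNN]; ring⟩
  obtain ⟨i₁, i₂, hi⟩ : IsCoprime (M : ℤ) (n : ℤ) := Nat.isCoprime_iff_coprime.2 hMn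
  -- `s = f * n + g * M` with `f = i₂ * s`, `g = i₁ * s`
  have hMf : ¬ (M : ℤ) ∣ i₂ * s := by
    intro hdv
    apply hMs
    have h1 : s = M * (i₁ * s) + n * (i₂ * s) := by linear_combination (-s) * hi
    rw [h1]
    exact dvd_add (dvd_mul_right _ _) (hdv.mul_left _)
  obtain ⟨u₀, hu₀, hm1, hm2⟩ := exists_mid_mult hM hMf
  -- the family with the additional form: replace the exponents at `x` by two values
  set g : ℤ := i₁ * s with hg
  set N1 : ℤ := M * (24 * T') with hN1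
  have hNN1 : (N : ℤ) = n * N1 := by rw [hNN, hN1]; ring
  let E' : Fin 3 → Fin (r + 1) → ℤ := fun w =>
    if w = x then Fin.cons (N1 * g) (fun _ => 0) else Fin.cons (E w k) (E w)
  have hE'x : ∀ j, E' x j = (Fin.cons (N1 * g) (fun _ => 0) : Fin (r + 1) → ℤ) j := by
    intro j; simp only [E', if_pos rfl]
  have hE'w : ∀ w, w ≠ x → ∀ j, E' w j = (Fin.cons (E w k) (E w) : Fin (r + 1) → ℤ) j := by
    intro w hw j; simp only [E', if_neg hw]
  set k' : Fin (r + 1) := Fin.succ k with hk'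
  have hclsx : cls N (E' x) ≤ 2 := by
    unfold cls
    have h1 : (univ.image fun l => E' x l % (N : ℤ)) ⊆ {N1 * g % N, 0} := by
      intro a ha
      obtain ⟨l, -, rfl⟩ := mem_image.1 ha
      rw [mem_insert, mem_singleton, hE'x]
      refine Fin.cases ?_ (fun j => ?_) l
      · left; simp
      · right; simp
    exact (card_le_card h1).trans (card_le_two)
  have hclsw : ∀ w, w ≠ x → cls N (E' w) ≤ cls N (E w) := by
    intro w hw
    unfold cls
    apply card_le_card
    intro a ha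
    obtain ⟨l, -, rfl⟩ := mem_image.1 ha
    rw [mem_image, hE'w w hw]
    refine Fin.cases ?_ (fun j => ?_) l
    · exact ⟨k, mem_univ _, by simp⟩
    · exact ⟨j, mem_univ _, by simp⟩
  have hnx : ∀ l, (N : ℤ) ∣ n * (E' x l - E' x k') := by
    intro l
    rw [hE'x, hE'x, hk', Fin.cons_succ, sub_zero]
    refine Fin.cases ?_ (fun j => ?_) l
    · rw [Fin.cons_zero, hNN1]
      exact ⟨g, by ring⟩
    · simp
  have hnw : ∀ w, w ≠ x → (∀ l l', (N : ℤ) ∣ n * (E w l - E w l')) → ∀ l,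
      (N : ℤ) ∣ n * (E' w l - E' w k') := by
    intro w hw hdw l
    rw [hE'w w hw, hE'w w hw, hk', Fin.cons_succ]
    refine Fin.cases ?_ (fun j => ?_) l
    · rw [Fin.cons_zero]; exact hdw k k
    · rw [Fin.cons_succ]; exact hdw j k
  obtain ⟨c, hc, hcl⟩ := exists_cluster (K := 24) (E := E') hN hn
    ((Dvd.intro_left (24 * M) rfl).trans (Dvd.intro _ hT'.symm)) (by norm_num) k' univ
    (fun w _ l => by
      by_cases hw : w = x
      · rw [hw]; exact hnx l
      · refine hnw w hw ?_ l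
        have : w = y ∨ w = z := by
          have hun := sum_fin3 hxy hyz hxz (fun v => if v = w then 1 else 0)
          simp only [sum_ite_eq', mem_univ, if_true] at hun
          by_contra hcon
          push Not at hcon
          rw [if_neg (fun h => hw h.symm), if_neg (fun h => hcon.1 h.symm),
            if_neg (fun h => hcon.2 h.symm)] at hun
          omega
        rcases this with h1 | h1
        · rw [h1]; exact hy
        · rw [h1]; exact hz) (by
      rw [sum_fin3 hxy hyz hxz]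
      refine lt_of_le_of_lt (mul_le_mul_of_nonneg_left (pow_le_pow_right₀ (by norm_num) ?_)
        (sum_nonneg fun p _ => by positivity)) hS
      have a1 := hclsx
      have a2 := hclsw y hxy.symm
      have a3 := hclsw z hxz.symm
      omega)
  obtain ⟨u, hu, hun, huM⟩ := crt_unit (u₀ := u₀) hN hMn (by
    rw [hT']; exact ⟨24 * T', by ring⟩) hu₀ hc
  obtain ⟨v, w, hvw⟩ := hu
  have hu : IsCoprime u (N : ℤ) := ⟨v, w, hvw⟩
  have hcl' : ∀ w, w ≠ x → ∀ l, ∃ e : ℤ, |e| < T ∧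
      (N : ℤ) ∣ u * (E w l - E w k) - e := by
    intro w hw l
    obtain ⟨e, he, hd⟩ := hcl u hun w (mem_univ w) (Fin.succ l)
    rw [hE'w w hw, hE'w w hw, hk', Fin.cons_succ, Fin.cons_succ] at hd
    refine ⟨e, ?_, hd⟩
    push_cast at he
    rw [hNT] at he
    linarith
  obtain ⟨e₀, he₀, hde₀⟩ := hcl u hun x (mem_univ x) 0
  rw [hE'x, hE'x, hk', Fin.cons_succ, Fin.cons_zero, sub_zero] at hde₀
  have he₀' : |e₀| < T := by
    push_cast at he₀
    rw [hNT] at he₀
    linarith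
  set β : Fin 3 → ℤ := fun w => if w = x then -((E y k - v * T) + (E z k - v * T)) else
    if w = y then E y k - v * T else E z k - v * T with hβ
  set γ : Fin 3 → ℤ := fun w => if w = x then N - 4 * T else 2 * T with hγ
  have bx : β x = -((E y k - v * T) + (E z k - v * T)) := by simp [hβ]
  have by' : β y = E y k - v * T := by simp [hβ, hxy.symm]
  have bz : β z = E z k - v * T := by simp [hβ, hxz.symm, hyz.symm]
  have gx : γ x = N - 4 * T := by simp [hγ]
  have gy : γ y = 2 * T := by simp [hγ, hxy.symm]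
  have gz : γ z = 2 * T := by simp [hγ, hxz.symm]
  have key := h β (by rw [sum_fin3 hxy hyz hxz, bx, by', bz]; exact ⟨0, by ring⟩) u hu γ
    (fun w => by
      simp only [hγ]
      split_ifs <;> linarith) (by rw [sum_fin3 hxy hyz hxz, gx, gy, gz]; ring)
    z (fun l => by rw [gz, bz]; exact cluster_strict hvw (by linarith) (hcl' z hxz.symm) l)
  rw [sum_fin3 hxy hyz hxz, gx, gy, gz, bx, by', bz,
    cluster_inside hN hvw (by linarith) (hcl' y hxy.symm),
    cluster_inside hN hvw (by linarith) (hcl' z hxz.symm), add_zero, add_zero] at key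
  set A : Fin r → ℤ := fun l => u * (E x l - -((E y k - v * T) + (E z k - v * T))) with hA
  have hall : ∀ l, (N : ℤ) - 4 * T < A l % N := by
    intro l
    have h1 : (univ.filter fun l => (N : ℤ) - 4 * T < A l % (N : ℤ)) = univ := by
      rw [← card_eq_iff_eq_univ, Fintype.card_fin]
      exact le_antisymm ((card_le_univ _).trans (by simp)) key
    have h2 : l ∈ (univ.filter fun l => (N : ℤ) - 4 * T < A l % (N : ℤ)) := by
      rw [h1]; exact mem_univ l
    exact (mem_filter.1 h2).2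
  have a1 := hall l₁
  have b1 := Int.emod_lt_of_pos (A l₁) hNz
  obtain ⟨q, hq⟩ : (N : ℤ) ∣ A l₁ - A l₁ % N := Int.dvd_self_sub_emod
  obtain ⟨j, hj⟩ := huM
  obtain ⟨i, hi'⟩ : (M : ℤ) ∣ u₀ * (i₂ * s) - (u₀ * (i₂ * s)) % M := Int.dvd_self_sub_emod
  obtain ⟨q₀, hq₀⟩ := hde₀
  set t := (u₀ * (i₂ * s)) % (M : ℤ) with ht
  set N2 : ℤ := n * (24 * T') with hN2
  have hN20 : 0 < N2 := by positivity
  have hNN2 : (N : ℤ) = M * N2 := by rw [hNN, hN2]; ring
  have e1 : A l₁ = u * (N2 * (i₂ * s)) + u * (N1 * g) - 2 * T * (u * v) := by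
    have h1 : A l₁ = u * (E x l₁ + E y k + E z k) - 2 * T * (u * v) := by rw [hA]; ring
    rw [h1, hD, hN2, hN1, hg]
    linear_combination (-(u * (24 * T' * s))) * hi
  -- `A l₁ % N + 2 T - e₀ = N2 * t + N * s'`
  obtain ⟨s', hs''⟩ : ∃ s' : ℤ, A l₁ % N + 2 * T - e₀ = N2 * t + N * s' := by
    refine ⟨i + j * (i₂ * s) - q + q₀ + 2 * T * w, ?_⟩
    have hvw' : u * v = 1 - w * N := by linarith
    rw [hvw'] at e1
    rw [hNN2] at hq hq₀ e1 ⊢
    linear_combination (-1 : ℤ) * hq + e1 + hq₀ + N2 * hi' + N2 * (i₂ * s) * hj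
  have c1 : (N : ℤ) ≤ 6 * (N2 * t) := by
    have : N2 * (M : ℤ) ≤ N2 * (6 * t) := mul_le_mul_of_nonneg_left hm1 hN20.le
    linarith
  have c2 : 6 * (N2 * t) ≤ 5 * N := by
    have : N2 * (6 * t) ≤ N2 * (5 * (M : ℤ)) := mul_le_mul_of_nonneg_left hm2 hN20.le
    linarith
  have he := abs_lt.1 he₀'
  rcases lt_trichotomy s' 0 with hs0 | hs0 | hs0
  · have : (N : ℤ) * s' ≤ N * (-1) := mul_le_mul_of_nonneg_left (by omega) hNz.le
    linarith
  · rw [hs0] at hs''
    linarith
  · rcases eq_or_lt_of_le (Int.add_one_le_of_lt hs0) with h1 | h1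
    · have : s' = 1 := by omega
      rw [this] at hs''
      linarith
    · have : (N : ℤ) * 2 ≤ N * s' := mul_le_mul_of_nonneg_left (by omega) hNz.le
      linarith

end main

end Pool.Agent.NH53.LP
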