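import Mathlib

set_option autoImplicit false

/-!
Conditions on the exponents of a system on the thrice punctured line: the orders of its projective
local monodromies have large prime factors. The exponents are given by
`lam : Fin 3 → Fin r → ℚ`, `r` rational numbers at each of the three points, and only their classes
modulo `ℤ` matter. (That a rational number is an integer is written `q.den = 1` or `∃ k : ℤ, q = k`.)
-/

open Finset

namespace Pool.Agent.NH53.LP

variable {r : ℕ}

/-- The number of the classes modulo `ℤ` of the exponents at the point `x`, that is the number of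
the different eigenvalues of the local monodromy at `x`. -/
def classes (lam : Fin 3 → Fin r → ℚ) (x : Fin 3) : ℕ :=
  (univ.image fun l => Int.fract (lam x l)).card

/-- The differences of the exponents at the point `x` are in `(1 / m) ℤ`. (The order of the
semisimple part of the projective local monodromy at `x` divides `m`.) -/
def DiffIn (lam : Fin 3 → Fin r → ℚ) (x : Fin 3) (m : ℕ) : Prop :=
  ∀ l l', ∃ k : ℤ, (m : ℚ) * (lam x l - lam x l') = k

/-- Not all exponents at the point `x` are equal modulo `ℤ`. -/
def NonScalar (lam : Fin 3 → Fin r → ℚ) (x : Fin 3) : Prop :=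
  ∃ l l', (lam x l - lam x l').den ≠ 1

/-- The sums of three exponents, one for each point, are in `(1 / m) ℤ`. -/
def SumIn (lam : Fin 3 → Fin r → ℚ) (m : ℕ) : Prop :=
  ∀ κ : Fin 3 → Fin r, ∃ k : ℤ, (m : ℚ) * ∑ i, lam i (κ i) = k

/-- Modulo `ℤ` and with multiplicities, the exponents at `y` are the numbers `c - λ`, where `λ` runs
through the exponents at `x`. -/
def Opposite (lam : Fin 3 → Fin r → ℚ) (x y : Fin 3) (c : ℚ) : Prop :=
  ∀ q : ℚ, (univ.filter fun l => (lam x l - q).den = 1).card =
    (univ.filter fun l => (lam y l + q - c).den = 1).card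

/-- The prime factors of `n` are large: `K ^ k ∑ 1 / p < 1`, the sum over the primes which divide
`n` (if `n` is a power of the prime number `p`, `K ^ k < p`). -/
def Rough (n K k : ℕ) : Prop := (∑ p ∈ n.primeFactors, (1 : ℚ) / p) * (K : ℚ) ^ k < 1

/-- Large primes at the point `z` only. There are coprime `M` and `n` such that the differences of
the exponents at `x` and `y` are in `(1 / M) ℤ`, those at `z` are in `(1 / n) ℤ`, and, where `s` is
the number of the exponents at `z` modulo `ℤ`,
* either `(2 M) ^ (s - 1) ∑ 1 / p < 1`, the sum over the primes which divide `n`, and the exponents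
  at `x` and at `y` are not opposite up to a translation;
* or `(2 M) ^ s ∑ 1 / p < 1`, the sums of three exponents are in `(1 / (M n)) ℤ`, and if the
  exponents at `x` and at `y` are opposite up to the translation by `c`, then the exponents at `z`
  are not all in `- c + (1 / n) ℤ`. -/
def OnePoint (lam : Fin 3 → Fin r → ℚ) (x y z : Fin 3) : Prop :=
  ∃ M n : ℕ, 0 < M ∧ 0 < n ∧ Nat.Coprime M n ∧ DiffIn lam x M ∧ DiffIn lam y M ∧ DiffIn lam z n ∧
    ((Rough n (2 * M) (classes lam z - 1) ∧ ∀ c, ¬ Opposite lam x y c) ∨
      (Rough n (2 * M) (classes lam z) ∧ SumIn lam (M * n) ∧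
        ∀ c, Opposite lam x y c → ¬ ∀ l, ∃ k : ℤ, (n : ℚ) * (lam z l + c) = k))

/-- Large primes at the points `y` and `z`. There is a positive integer `n` such that the differences
of the exponents at `y` and those at `z` are in `(1 / n) ℤ`, with `24 ^ (s - 1 + s') ∑ 1 / p < 1`, where
`s` and `s'` are the numbers of the exponents at `y` and at `z` modulo `ℤ` and the sum is over the primes
which divide `n`; and there is a sum of three exponents, one for each point, whose denominator has a
prime factor which does not divide `n`. (This holds for example if the difference of two exponents at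
the third point has such a denominator.) -/
def TwoPoints (lam : Fin 3 → Fin r → ℚ) (y z : Fin 3) : Prop :=
  ∃ n : ℕ, 0 < n ∧ DiffIn lam y n ∧ DiffIn lam z n ∧ Rough n 24 (classes lam y - 1 + classes lam z) ∧
    ∃ (κ : Fin 3 → Fin r) (p : ℕ), p.Prime ∧ ¬ p ∣ n ∧ p ∣ (∑ i, lam i (κ i)).den

/-- The projective local monodromies have three different prime numbers as orders (or rather their
semisimple parts), and one of the primes is large: it is at least `(8 * 24 ^ (4 k + 2)) ^ k`, where each
local monodromy has at most `k + 1` different eigenvalues. -/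
def ThreePrimes (lam : Fin 3 → Fin r → ℚ) : Prop :=
  ∃ (p : Fin 3 → ℕ) (k : ℕ), Function.Injective p ∧
    (∀ i, (p i).Prime ∧ DiffIn lam i (p i) ∧ NonScalar lam i ∧ classes lam i ≤ k + 1) ∧
    ∃ i, (8 * 24 ^ (4 * k + 2)) ^ k ≤ p i

end Pool.Agent.NH53.LP
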