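import Pool.Agent.TH571.PCV.Block
import Pool.Agent.NH53.LP.Core
import Pool.Agent.NH53.LP.Defs

set_option autoImplicit false

/-!
The arc inequality for arbitrary systems (not necessarily irreducible).
-/

open Finset

namespace Pool.Agent.NH53.LP

open Pool.Agent.W432.PC Pool.Agent.TH571.PCV

universe u

/-- A common denominator. -/
lemma exists_den {r : ℕ} (lam : Fin 3 → Fin r → ℚ) :
    ∃ B : ℕ, 0 < B ∧ ∀ i l, ∃ m : ℤ, (B : ℚ) * lam i l = m := by
  refine ⟨∏ i, ∏ l, (lam i l).den, prod_pos fun i _ => prod_pos fun l _ => (lam i l).den_pos, ?_⟩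
  intro i l
  have h1 : (lam i l).den ∣ ∏ i, ∏ l, (lam i l).den :=
    (dvd_prod_of_mem (fun l => (lam i l).den) (mem_univ l)).trans
      (dvd_prod_of_mem (fun i => ∏ l, (lam i l).den) (mem_univ i))
  obtain ⟨k, hk⟩ := h1
  refine ⟨k * (lam i l).num, ?_⟩
  rw [hk]
  push_cast
  have := Rat.den_mul_eq_num (lam i l)
  linear_combination (k : ℚ) * this

/-- There is a residue class modulo `B` (the class of `p` with `a p = -1`) such that the `p`-curvature
is nonzero at all closed points whose residue characteristic is a large prime in the class. -/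
def BadClass {R : Type u} [CommRing R] {n r : ℕ} (α : Fin n → R)
    (A : Fin n → Matrix (Fin r) (Fin r) R) (B : ℕ) : Prop :=
  ∃ a : ℤ, IsCoprime a (B : ℤ) ∧ ∃ P₀ : ℕ, ∀ p : ℕ, p.Prime → P₀ < p → (B : ℤ) ∣ a * p + 1 →
    ∀ (𝔪 : Ideal R) [𝔪.IsMaximal], (p : R) ∈ 𝔪 → ¬ PCurvZeroAt α A 𝔪

section

variable {R : Type u} [CommRing R] [IsDomain R] [CharZero R] {n r : ℕ}

omit [IsDomain R] [CharZero R] in
lemma class_lift {α : Fin n → R} {A : Fin n → Matrix (Fin r) (Fin r) R} {B N : ℕ}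
    (hbad : ¬ BadClass α A B) (hBN : B ∣ N) (hN : 0 < N) {u : ℤ} (hu : IsCoprime u (N : ℤ)) :
    ∃ u' : ℤ, (B : ℤ) ∣ u' - u ∧ ¬ ∃ P₀ : ℕ, ∀ p : ℕ, p.Prime → P₀ < p → (N : ℤ) ∣ u' * p + 1 →
      ∀ (𝔪 : Ideal R) [𝔪.IsMaximal], (p : R) ∈ 𝔪 → ¬ PCurvZeroAt α A 𝔪 := by
  by_contra hcon
  push Not at hcon
  apply hbad
  have hNz : (0 : ℤ) < N := by exact_mod_cast hN
  have hBN' : (B : ℤ) ∣ (N : ℤ) := by exact_mod_cast hBN
  have h1 : ∀ j : ℕ, ∃ P : ℕ, (B : ℤ) ∣ (j : ℤ) - u → ∀ p : ℕ, p.Prime → P < p →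
      (N : ℤ) ∣ (j : ℤ) * p + 1 → ∀ (𝔪 : Ideal R) [𝔪.IsMaximal], (p : R) ∈ 𝔪 →
      ¬ PCurvZeroAt α A 𝔪 := by
    intro j
    by_cases hj : (B : ℤ) ∣ (j : ℤ) - u
    · obtain ⟨P, hP⟩ := hcon j hj
      exact ⟨P, fun _ => hP⟩
    · exact ⟨0, fun h => absurd h hj⟩
  choose f hf using h1
  refine ⟨u, IsCoprime.of_isCoprime_of_dvd_right hu hBN', N + ∑ j ∈ range N, f j,
    fun p hp hpP hap 𝔪 _ hpm => ?_⟩
  -- the class of `p` modulo `N`
  have hpN : IsCoprime (p : ℤ) (N : ℤ) := by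
    rw [Nat.isCoprime_iff_coprime, Nat.Prime.coprime_iff_not_dvd hp]
    intro hdv
    have := Nat.le_of_dvd hN hdv
    omega
  obtain ⟨v, w, hvw⟩ := hpN
  set j : ℕ := ((-v) % (N : ℤ)).toNat with hj
  have hj0 := Int.emod_nonneg (-v) hNz.ne'
  have hj1 := Int.emod_lt_of_pos (-v) hNz
  have hjz : (j : ℤ) = (-v) % (N : ℤ) := Int.toNat_of_nonneg hj0
  have hjN : j < N := by omega
  obtain ⟨q, hq⟩ : (N : ℤ) ∣ -v - (-v) % N := Int.dvd_self_sub_emod
  have hjp : (N : ℤ) ∣ (j : ℤ) * p + 1 := by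
    refine ⟨w - q * p, ?_⟩
    rw [hjz]
    linear_combination (-(p : ℤ)) * hq - hvw
  have hBj : (B : ℤ) ∣ (j : ℤ) - u := by
    have h2 : (B : ℤ) ∣ ((j : ℤ) - u) * p := by
      have h3 := dvd_sub (hBN'.trans hjp) hap
      have h4 : (j : ℤ) * p + 1 - (u * p + 1) = ((j : ℤ) - u) * p := by ring
      rwa [h4] at h3
    have h5 : IsCoprime (B : ℤ) (p : ℤ) :=
      (IsCoprime.of_isCoprime_of_dvd_right ⟨v, w, hvw⟩ hBN').symm
    exact h5.dvd_of_dvd_mul_right h2
  refine hf j hBj p hp ?_ hjp 𝔪 hpm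
  have h6 : f j ≤ ∑ j ∈ range N, f j := single_le_sum (f := f) (fun _ _ => Nat.zero_le _)
    (mem_range.2 hjN)
  omega

/-- One residue. -/
lemma residue_id {N : ℤ} (hN : 0 < N) {t b g : ℤ} (h0 : 0 ≤ g) (h1 : g < N) :
    (t - b) % N - (t - (b + g + 1)) % N = g + 1 - N * (if g < (t - b) % N then 0 else 1) := by
  have h2 := Int.emod_nonneg (t - b) hN.ne'
  have h3 := Int.emod_lt_of_pos (t - b) hN
  obtain ⟨q, hq⟩ : N ∣ (t - b) - (t - b) % N := Int.dvd_self_sub_emod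
  by_cases h : g < (t - b) % N
  · rw [if_pos h]
    have h4 : t - (b + g + 1) = ((t - b) % N - g - 1) + N * q := by linear_combination hq
    have h5 : (t - (b + g + 1)) % N = (t - b) % N - g - 1 := by
      rw [h4, Int.add_mul_emod_self_left]
      exact Int.emod_eq_of_lt (by omega) (by omega)
    rw [h5]
    ring
  · rw [if_neg h]
    have h4 : t - (b + g + 1) = ((t - b) % N - g - 1 + N) + N * (q - 1) := by
      linear_combination hq
    have h5 : (t - (b + g + 1)) % N = (t - b) % N - g - 1 + N := by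
      rw [h4, Int.add_mul_emod_self_left]
      exact Int.emod_eq_of_lt (by omega) (by omega)
    rw [h5]
    ring

theorem arcs_of_not (α : Fin 2 → R) (hα : ∀ i j, i ≠ j → IsUnit (α i - α j))
    (A : Fin 2 → Matrix (Fin r) (Fin r) R) (lam : Fin 3 → Fin r → ℚ)
    (hlam : ∀ j : Fin 2, HasExponents (A j) (lam j.castSucc))
    (hphi : HasExponents (∑ j, A j) (fun l => -lam 2 l))
    (N : ℕ) (hN : 0 < N) (e : Fin 3 → Fin r → ℤ)
    (he : ∀ i l, (N : ℚ) * lam i l = e i l) (a : ℤ)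
    (hno : ¬ ∃ P₀ : ℕ, ∀ p : ℕ, p.Prime → P₀ < p → (N : ℤ) ∣ a * p + 1 →
      ∀ (𝔪 : Ideal R) [𝔪.IsMaximal], (p : R) ∈ 𝔪 → ¬ PCurvZeroAt α A 𝔪)
    (b : Fin 3 → ℤ) (hb : (N : ℤ) ∣ ∑ i, b i - 1) (γ : Fin 3 → ℤ) (hγ : ∀ i, 0 ≤ γ i)
    (hγs : ∑ i, γ i = N - 2) :
    r ≤ ∑ i, (univ.filter fun l => γ i < (a * e i l - b i) % (N : ℤ)).card := by
  have hN' : (0 : ℤ) < N := by exact_mod_cast hN
  obtain ⟨k, hk⟩ := hb
  have hlow := sym_lower α hα A lam hlam hphi N hN e he a hno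
    (fun i => b i - N * (if i = 0 then k else 0)) (by
      rw [sum_sub_distrib, ← mul_sum, sum_ite_eq' univ (0 : Fin 3) fun _ => k,
        if_pos (mem_univ _)]
      linarith)
  have hup := sym_upper α hα A lam hlam hphi N hN e he a hno
    (fun i => (b i + γ i + 1) - N * (if i = 0 then k + 1 else 0)) (by
      rw [sum_sub_distrib, ← mul_sum, sum_ite_eq' univ (0 : Fin 3) fun _ => k + 1,
        if_pos (mem_univ _), sum_add_distrib, sum_add_distrib, hγs]
      simp only [sum_const, card_univ, Fintype.card_fin, nsmul_eq_mul]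
      push_cast
      linarith)
  have hmod : ∀ (t c d : ℤ), (t - (c - N * d)) % (N : ℤ) = (t - c) % (N : ℤ) := by
    intro t c d
    rw [show t - (c - (N : ℤ) * d) = (t - c) + N * d by ring, Int.add_mul_emod_self_left]
  simp only [hmod] at hlow hup
  have hγN : ∀ i, γ i < N := by
    intro i
    have := single_le_sum (f := γ) (fun i _ => hγ i) (mem_univ i)
    linarith
  have hid : ∑ i, ∑ l, (a * e i l - b i) % (N : ℤ) -
      ∑ i, ∑ l, (a * e i l - (b i + γ i + 1)) % (N : ℤ) =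
      ∑ i, ∑ _l : Fin r, (γ i + 1) -
        N * ∑ i, ∑ l, (if γ i < (a * e i l - b i) % (N : ℤ) then 0 else 1) := by
    rw [mul_sum, ← sum_sub_distrib, ← sum_sub_distrib]
    refine sum_congr rfl fun i _ => ?_
    rw [mul_sum, ← sum_sub_distrib, ← sum_sub_distrib]
    refine sum_congr rfl fun l _ => ?_
    exact residue_id hN' (hγ i) (hγN i)
  have hcard : ∀ i, (∑ l, (if γ i < (a * e i l - b i) % (N : ℤ) then (0 : ℤ) else 1)) =
      r - ((univ.filter fun l => γ i < (a * e i l - b i) % (N : ℤ)).card : ℤ) := by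
    intro i
    have h1 : ∀ l, (if γ i < (a * e i l - b i) % (N : ℤ) then (0 : ℤ) else 1) =
        1 - (if γ i < (a * e i l - b i) % (N : ℤ) then (1 : ℤ) else 0) := by
      intro l; split_ifs <;> ring
    simp only [h1, sum_sub_distrib, sum_const, card_univ, Fintype.card_fin, nsmul_eq_mul, mul_one,
      sum_boole]
  simp only [hcard, sum_sub_distrib, sum_const, card_univ, Fintype.card_fin, nsmul_eq_mul] at hid
  rw [← mul_sum] at hid
  have hs : ∑ i, (γ i + 1) = (N : ℤ) + 1 := by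
    rw [sum_add_distrib, hγs]
    simp only [sum_const, card_univ, Fintype.card_fin, nsmul_eq_mul]
    push_cast
    ring
  rw [hs] at hid
  set C : ℤ := ∑ i, ((univ.filter fun l => γ i < (a * e i l - b i) % (N : ℤ)).card : ℤ) with hC
  have hfin : (N : ℤ) * r ≤ N * C := by
    push_cast at hid hup
    nlinarith [hid, hlow, hup]
  have h2 := le_of_mul_le_mul_left hfin hN'
  have h3 : ((∑ i, (univ.filter fun l => γ i < (a * e i l - b i) % (N : ℤ)).card : ℕ) : ℤ) = C := by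
    push_cast; rfl
  rw [← h3] at h2
  exact_mod_cast h2

/-- The arc inequality for an arbitrary system. -/
theorem sys_raw (α : Fin 2 → R) (hα : ∀ i j, i ≠ j → IsUnit (α i - α j))
    (A : Fin 2 → Matrix (Fin r) (Fin r) R) (lam : Fin 3 → Fin r → ℚ)
    (hlam : ∀ j : Fin 2, HasExponents (A j) (lam j.castSucc))
    (hphi : HasExponents (∑ j, A j) (fun l => -lam 2 l)) {B : ℕ}
    (hBlam : ∀ i l, ∃ m : ℤ, (B : ℚ) * lam i l = m) (hbad : ¬ BadClass α A B) {N : ℕ} (hN : 0 < N)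
    (hBN : B ∣ N) : ∃ E : Fin 3 → Fin r → ℤ, (∀ i l, (N : ℚ) * lam i l = E i l) ∧
      ∀ u : ℤ, IsCoprime u (N : ℤ) → ∀ b : Fin 3 → ℤ, (N : ℤ) ∣ ∑ i, b i - 1 →
        ∀ γ : Fin 3 → ℤ, (∀ i, 0 ≤ γ i) → ∑ i, γ i = N - 2 →
          r ≤ ∑ i, (univ.filter fun l => γ i < (u * E i l - b i) % (N : ℤ)).card := by
  obtain ⟨k, hk⟩ := hBN
  choose m hm using hBlam
  have hE : ∀ i l, (N : ℚ) * lam i l = ((k * m i l : ℤ) : ℚ) := by
    intro i l
    rw [hk]
    push_cast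
    rw [← hm]; ring
  refine ⟨fun i l => k * m i l, hE, fun u hu b hb γ hγ hγs => ?_⟩
  obtain ⟨u', ⟨q, hq⟩, hno⟩ := class_lift hbad ⟨k, hk⟩ hN hu
  have h1 := arcs_of_not α hα A lam hlam hphi N hN _ hE u' hno b hb γ hγ hγs
  have h2 : ∀ i l, (u' * (k * m i l : ℤ) - b i) % (N : ℤ) = (u * (k * m i l : ℤ) - b i) % (N : ℤ) := by
    intro i l
    have h4 : u' * (k * m i l : ℤ) - b i = (u * (k * m i l : ℤ) - b i) + N * (q * m i l) := by
      have h5 : (N : ℤ) = B * k := by rw [hk]; push_cast; ring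
      rw [h5]
      linear_combination (k * m i l : ℤ) * hq
    rw [h4, Int.add_mul_emod_self_left]
  simp only [h2] at h1
  exact h1

/-- **The arc inequality for an arbitrary system.** -/
theorem sys_arcs (α : Fin 2 → R) (hα : ∀ i j, i ≠ j → IsUnit (α i - α j))
    (A : Fin 2 → Matrix (Fin r) (Fin r) R) (lam : Fin 3 → Fin r → ℚ)
    (hlam : ∀ j : Fin 2, HasExponents (A j) (lam j.castSucc))
    (hphi : HasExponents (∑ j, A j) (fun l => -lam 2 l)) {B : ℕ}
    (hBlam : ∀ i l, ∃ m : ℤ, (B : ℚ) * lam i l = m) (hbad : ¬ BadClass α A B) {N : ℕ} (hN : 0 < N)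
    (hBN : B ∣ N) : ∃ E : Fin 3 → Fin r → ℤ, (∀ i l, (N : ℚ) * lam i l = E i l) ∧ Arcs N E := by
  obtain ⟨E, hE, hraw⟩ := sys_raw α hα A lam hlam hphi hBlam hbad hN hBN
  refine ⟨E, hE, ?_⟩
  intro β hβ u hu γ hγ hγs z hz
  rcases Nat.eq_zero_or_pos r with h0 | h0
  · exact h0.le.trans (Nat.zero_le _)
  have hzγ : 2 ≤ γ z := by
    have := hz ⟨0, h0⟩
    omega
  have hN' : (0 : ℤ) < N := by exact_mod_cast hN
  have h1 := hraw u hu (fun i => u * β i + (if i = z then 1 else 0)) (by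
      rw [sum_add_distrib, sum_ite_eq' univ z fun _ => (1 : ℤ), if_pos (mem_univ _), ← mul_sum]
      obtain ⟨t, ht⟩ := hβ
      exact ⟨u * t, by rw [ht]; ring⟩)
    (fun i => γ i - (if i = z then 2 else 0)) (fun i => by
      by_cases hi : i = z
      · rw [if_pos hi, hi]; linarith
      · rw [if_neg hi]; linarith [hγ i]) (by
      rw [sum_sub_distrib, sum_ite_eq' univ z fun _ => (2 : ℤ), if_pos (mem_univ _), hγs])
  refine h1.trans (sum_le_sum fun i _ => card_le_card fun l hl => ?_)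
  rw [mem_filter] at hl ⊢
  refine ⟨mem_univ _, ?_⟩
  have h2 := hl.2
  have hzl := hz l
  have h3 : (u * E i l - (u * β i + (if i = z then 1 else 0))) % (N : ℤ) =
      (u * (E i l - β i) - (if i = z then 1 else 0)) % (N : ℤ) := by
    congr 1
    ring
  rw [h3] at h2
  by_cases hi : i = z
  · exfalso
    rw [if_pos hi, if_pos hi] at h2
    have h5 := hzl
    rw [← hi] at h5
    obtain ⟨q', hq'⟩ : (N : ℤ) ∣ u * (E i l - β i) - (u * (E i l - β i)) % N :=
      Int.dvd_self_sub_emod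
    have h6 : u * (E i l - β i) - 1 =
        ((u * (E i l - β i)) % N - 1) + N * q' := by linear_combination hq'
    have h7 := Int.emod_lt_of_pos (u * (E i l - β i)) hN'
    rw [h6, Int.add_mul_emod_self_left, Int.emod_eq_of_lt (by omega) (by omega)] at h2
    omega
  · rw [if_neg hi, if_neg hi, sub_zero, sub_zero] at h2
    exact h2

end

end Pool.Agent.NH53.LP
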