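import Pool.Agent.NH53.LP.Red

set_option autoImplicit false

/-!
The parts prime to `n` of the exponents of a system with vanishing `p`-curvatures satisfy the
inequalities of semistability.
-/

open Finset

namespace Pool.Agent.NH53.LP

open Pool.Agent.W432.PC

universe u

variable {r : ℕ}

/-- The fractions `e i l / M` (`r` of them at each of the three points `i`) violate, after the
multiplication by a number `u` prime to `M`, one of the inequalities of semistability for parabolic line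
bundles: there are integers `b i` and `γ i ≥ 0` such that `∑ b i` is congruent to `1` modulo `M`,
`∑ γ i = M - 2`, and more than `2 r` of the numbers `u * e i l` are congruent modulo `M` to one of
`b i, b i + 1, …, b i + γ i`. -/
def Unstable (M : ℕ) (e : Fin 3 → Fin r → ℤ) : Prop :=
  ∃ u : ℤ, IsCoprime u (M : ℤ) ∧ ∃ b γ : Fin 3 → ℤ, (M : ℤ) ∣ ∑ i, b i - 1 ∧ (∀ i, 0 ≤ γ i) ∧
    ∑ i, γ i = M - 2 ∧
    2 * r < ∑ i, (univ.filter fun l => (u * e i l - b i) % (M : ℤ) ≤ γ i).card

/-- The number of the nonzero residue classes of the numbers `e i l` modulo `n`. -/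
def residues (n : ℕ) (e : Fin 3 → Fin r → ℤ) : ℕ :=
  ((univ.image fun x : Fin 3 × Fin r => e x.1 x.2 % (n : ℤ)).erase 0).card

/-- **The prime-to-`n` part.** -/
theorem not_unstable {N M n : ℕ} {E e : Fin 3 → Fin r → ℤ} (hN : 0 < N)
    (hraw : ∀ u : ℤ, IsCoprime u (N : ℤ) → ∀ b : Fin 3 → ℤ, (N : ℤ) ∣ ∑ i, b i - 1 →
        ∀ γ : Fin 3 → ℤ, (∀ i, 0 ≤ γ i) → ∑ i, γ i = N - 2 →
          r ≤ ∑ i, (univ.filter fun l => γ i < (u * E i l - b i) % (N : ℤ)).card)
    (hM : 0 < M) (hn : 0 < n) (hMn : Nat.Coprime M n) {S : ℤ} (hNS : (N : ℤ) = 3 * M * n * S)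
    {b₀ : Fin 3 → ℤ} (hb₀ : ∑ i, b₀ i = 0) (hE : ∀ i l, E i l = b₀ i + 3 * S * e i l)
    (hR : (∑ p ∈ n.primeFactors, (1 : ℚ) / p) * (3 * M : ℚ) ^ residues n e < 1) :
    ¬ Unstable M e := by
  classical
  rintro ⟨u₀, hu₀, b, γ, hb, hγ, hγs, hcount⟩
  have hNz : (0 : ℤ) < N := by exact_mod_cast hN
  have hMz : (0 : ℤ) < M := by exact_mod_cast hM
  have hnz : (0 : ℤ) < n := by exact_mod_cast hn
  have hS : 0 < S := by
    by_contra h0
    push Not at h0
    have : (3 * M * n : ℤ) * S ≤ 0 := mul_nonpos_of_nonneg_of_nonpos (by positivity) h0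
    linarith
  -- the small multiples
  obtain ⟨c, hc, hcS⟩ := exists_unit_small (K := 3 * M) hn (by omega)
    ((univ.image fun x : Fin 3 × Fin r => e x.1 x.2 % (n : ℤ)).erase 0) (by
      push_cast
      exact hR)
  obtain ⟨i₁, i₂, hi⟩ : IsCoprime (M : ℤ) (n : ℤ) := Nat.isCoprime_iff_coprime.2 hMn
  have hMn' : IsCoprime (M : ℤ) (n : ℤ) := ⟨i₁, i₂, hi⟩
  obtain ⟨u, hu, hun, huM⟩ := crt_unit (N := N) (u₀ := u₀ * n) (c := c * M) hN hMn (by
    have h1 : ((M * n : ℕ) : ℤ) ∣ (N : ℤ) := ⟨3 * S, by rw [hNS]; push_cast; ring⟩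
    exact_mod_cast h1) (hu₀.mul_left hMn'.symm) (hc.mul_left hMn')
  set T : ℤ := n * S with hT
  have hT0 : 0 < T := mul_pos hnz hS
  have hNT : (N : ℤ) = 3 * M * T := by rw [hNS, hT]; ring
  -- the position of the exponents
  have hpos : ∀ i l, ∃ t : ℤ, |t| < T ∧
      (N : ℤ) ∣ u * E i l - (u * b₀ i + 3 * T * (u₀ * e i l) + t) := by
    intro i l
    have hsm : ∃ w : ℤ, |c * (e i l % n) - n * w| * ((3 * M : ℕ) : ℤ) < n := by
      by_cases h0 : e i l % (n : ℤ) = 0
      · exact ⟨0, by rw [h0]; simpa using hnz⟩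
      · exact hcS _ (mem_erase.2 ⟨h0, mem_image.2 ⟨(i, l), mem_univ _, rfl⟩⟩)
    obtain ⟨w, hw⟩ := hsm
    obtain ⟨j, hj⟩ : (n : ℤ) ∣ e i l - e i l % n := Int.dvd_self_sub_emod
    obtain ⟨v, hv⟩ := hun
    obtain ⟨v', hv'⟩ := huM
    refine ⟨3 * M * S * (c * (e i l % n) - n * w), ?_, ?_⟩
    · push_cast at hw
      rw [abs_mul, abs_of_pos (by positivity : (0 : ℤ) < 3 * M * S), hT]
      have h1 := mul_lt_mul_of_pos_left hw hS
      calc (3 * M * S : ℤ) * |c * (e i l % n) - n * w| =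
          S * (|c * (e i l % n) - n * w| * (3 * M)) := by ring
        _ < S * n := h1
        _ = n * S := by ring
    · -- `u (3 S e) = 3 n S (u₀ e) + 3 M S (c e)` modulo `N`
      have key : (M * n : ℤ) ∣ u * e i l - (n * (u₀ * e i l) + M * (c * e i l)) := by
        have h1 : (n : ℤ) ∣ u * e i l - (n * (u₀ * e i l) + M * (c * e i l)) :=
          ⟨v * e i l - u₀ * e i l, by linear_combination (e i l : ℤ) * hv⟩
        have h2 : (M : ℤ) ∣ u * e i l - (n * (u₀ * e i l) + M * (c * e i l)) :=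
          ⟨v' * e i l - c * e i l, by linear_combination (e i l : ℤ) * hv'⟩
        exact hMn'.mul_dvd h2 h1
      obtain ⟨s, hs⟩ := key
      refine ⟨s + c * j + w, ?_⟩
      rw [hE, hNS, hT]
      linear_combination (3 * S : ℤ) * hs + (3 * S * M * c : ℤ) * hj
  have h3T : 3 * T * (M : ℤ) = N := by rw [hNT]; ring
  -- the arcs
  have hmain := hraw u hu (fun i => u * b₀ i + 3 * T * b i - T + (if i = 0 then 1 else 0)) (by
      obtain ⟨j, hj⟩ := hb
      refine ⟨j, ?_⟩
      rw [sum_add_distrib, sum_ite_eq' univ (0 : Fin 3) fun _ => (1 : ℤ), if_pos (mem_univ _),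
        sum_sub_distrib, sum_add_distrib, ← mul_sum, ← mul_sum, hb₀]
      simp only [sum_const, card_univ, Fintype.card_fin, nsmul_eq_mul]
      push_cast
      linear_combination (3 * T) * hj + j * h3T)
    (fun i => 3 * T * γ i + 2 * T - (if i = 0 then 2 else 0)) (fun i => by
      have h1 : 0 ≤ 3 * T * γ i := by have := hγ i; positivity
      by_cases h0 : i = 0
      · rw [if_pos h0]; linarith
      · rw [if_neg h0]; linarith) (by
      rw [sum_sub_distrib, sum_ite_eq' univ (0 : Fin 3) fun _ => (2 : ℤ), if_pos (mem_univ _),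
        sum_add_distrib, ← mul_sum, hγs]
      simp only [sum_const, card_univ, Fintype.card_fin, nsmul_eq_mul]
      push_cast
      linear_combination h3T)
  have hle : ∀ i, (univ.filter fun l => 3 * T * γ i + 2 * T - (if i = 0 then 2 else 0) <
      (u * E i l - (u * b₀ i + 3 * T * b i - T + (if i = 0 then 1 else 0))) % (N : ℤ)).card +
      (univ.filter fun l => (u₀ * e i l - b i) % (M : ℤ) ≤ γ i).card ≤ r := by
    intro i
    rw [← card_union_of_disjoint]
    · exact (card_le_univ _).trans (by simp)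
    · rw [disjoint_filter]
      intro l _ h1 h2
      obtain ⟨t, ht, q, hq⟩ := hpos i l
      have ht' := abs_lt.1 ht
      obtain ⟨q', hq'⟩ : (M : ℤ) ∣ (u₀ * e i l - b i) - (u₀ * e i l - b i) % M :=
        Int.dvd_self_sub_emod
      set s := (u₀ * e i l - b i) % (M : ℤ) with hs
      have hs0 : 0 ≤ s := Int.emod_nonneg _ hMz.ne'
      have hγM : γ i ≤ M - 2 := by
        have := single_le_sum (f := γ) (fun i _ => hγ i) (mem_univ i)
        linarith
      have h3 : u * E i l - (u * b₀ i + 3 * T * b i - T + (if i = 0 then 1 else 0)) =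
          (3 * T * s + t + T - (if i = 0 then 1 else 0)) + N * (q + q') := by
        linear_combination hq + (3 * T) * hq' + q' * h3T
      have h5 : 3 * T * s ≤ 3 * T * γ i := by
        apply mul_le_mul_of_nonneg_left h2 (by linarith)
      have h5' : 3 * T * γ i ≤ 3 * T * (M - 2) := by
        apply mul_le_mul_of_nonneg_left hγM (by linarith)
      have h6 : 0 ≤ 3 * T * s := by positivity
      by_cases h0 : i = 0
      · rw [if_pos h0] at h1 h3
        rw [if_pos h0] at h1
        rw [h3, Int.add_mul_emod_self_left, Int.emod_eq_of_lt (by linarith) (by linarith)] at h1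
        linarith
      · rw [if_neg h0] at h1 h3
        rw [if_neg h0] at h1
        rw [h3, Int.add_mul_emod_self_left, Int.emod_eq_of_lt (by linarith) (by linarith)] at h1
        linarith
  have hsum := sum_le_sum fun i (_ : i ∈ (univ : Finset (Fin 3))) => hle i
  rw [sum_add_distrib] at hsum
  simp only [sum_const, card_univ, Fintype.card_fin, smul_eq_mul] at hsum
  omega

section

variable {R : Type u} [CommRing R] [IsDomain R] [CharZero R]

theorem sys_semi (α : Fin 2 → R) (hα : ∀ i j, i ≠ j → IsUnit (α i - α j))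
    (A : Fin 2 → Matrix (Fin r) (Fin r) R) (lam : Fin 3 → Fin r → ℚ)
    (hlam : ∀ j : Fin 2, HasExponents (A j) (lam j.castSucc))
    (hphi : HasExponents (∑ j, A j) (fun l => -lam 2 l)) {B : ℕ} (hB : 0 < B)
    (hBlam : ∀ i l, ∃ m : ℤ, (B : ℚ) * lam i l = m) {M n : ℕ} (hM : 0 < M) (hn : 0 < n)
    (hMn : Nat.Coprime M n) (ε : Fin 3 → ℚ) (hε : ∑ i, ε i = 0) (e : Fin 3 → Fin r → ℤ)
    (he : ∀ i l, ((M * n : ℕ) : ℚ) * (lam i l - ε i) = e i l)
    (hR : (∑ p ∈ n.primeFactors, (1 : ℚ) / p) * (3 * M : ℚ) ^ residues n e < 1)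
    (hun : Unstable M e) : BadClass α A B := by
  by_contra hbad
  set D : ℕ := ∏ i, (ε i).den with hD
  have hD0 : 0 < D := prod_pos fun i _ => (ε i).den_pos
  set N : ℕ := B * (3 * (M * n) * D) with hNdef
  have hN : 0 < N := by positivity
  obtain ⟨E, hE, hraw⟩ := sys_raw α hα A lam hlam hphi hBlam hbad hN (Dvd.intro _ rfl)
  have hNε : ∀ i, ∃ m : ℤ, (N : ℚ) * ε i = m := by
    intro i
    obtain ⟨k, hk⟩ : (ε i).den ∣ D := dvd_prod_of_mem (fun i => (ε i).den) (mem_univ i)
    refine ⟨(B * (3 * (M * n)) * k : ℕ) * (ε i).num, ?_⟩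
    rw [hNdef, hk]
    push_cast
    have := Rat.den_mul_eq_num (ε i)
    linear_combination (B * (3 * (M * n)) * k : ℚ) * this
  choose b₀ hb₀ using hNε
  refine not_unstable hN hraw hM hn hMn (S := ((B * D : ℕ) : ℤ)) (b₀ := b₀) (e := e) ?_ ?_ ?_ hR hun
  · rw [hNdef]; push_cast; ring
  · have h1 : ((∑ i, b₀ i : ℤ) : ℚ) = 0 := by
      push_cast
      simp only [← hb₀]
      rw [← mul_sum, hε, mul_zero]
    exact_mod_cast h1
  · intro i l
    have h1 : ((E i l : ℤ) : ℚ) = ((b₀ i + 3 * ((B * D : ℕ) : ℤ) * e i l : ℤ) : ℚ) := by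
      rw [← hE]
      have h2 := he i l
      push_cast at h2 ⊢
      rw [← hb₀, ← h2, hNdef]
      push_cast
      ring
    exact_mod_cast h1

end

end Pool.Agent.NH53.LP
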