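import Pool.Agent.NH53.LP.Red

set_option autoImplicit false

/-!
Systems on the thrice punctured line with orders with large prime factors.
-/

open Finset

namespace Pool.Agent.NH53.LP

open Pool.Agent.W432.PC

universe u

variable {r : ℕ}

lemma Rough.mono {n K k k' : ℕ} (hK : 1 ≤ K) (h : Rough n K k) (hk : k' ≤ k) : Rough n K k' := by
  unfold Rough at h ⊢
  refine lt_of_le_of_lt (mul_le_mul_of_nonneg_left (pow_le_pow_right₀ (by exact_mod_cast hK) hk)
    (sum_nonneg fun p _ => by positivity)) h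

section trans

variable {N : ℕ} {lam : Fin 3 → Fin r → ℚ} {E : Fin 3 → Fin r → ℤ}

lemma den_one_iff {q : ℚ} : q.den = 1 ↔ ∃ k : ℤ, q = k :=
  ⟨fun h => ⟨q.num, (Rat.coe_int_num_of_den_eq_one h).symm⟩, by rintro ⟨k, rfl⟩; simp⟩

lemma DiffIn.dvd (hN : 0 < N) (hE : ∀ i l, (N : ℚ) * lam i l = E i l) {x : Fin 3} {m : ℕ}
    (h : DiffIn lam x m) (l l' : Fin r) : (N : ℤ) ∣ m * (E x l - E x l') := by
  obtain ⟨k, hk⟩ := h l l'
  refine ⟨k, ?_⟩
  have h1 : ((m : ℚ) * (E x l - E x l')) = N * k := by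
    rw [← hE, ← hE, ← hk]; ring
  exact_mod_cast h1

lemma not_dvd_diff (hN : 0 < N) (hE : ∀ i l, (N : ℚ) * lam i l = E i l) {x : Fin 3} {l l' : Fin r}
    (h : (lam x l - lam x l').den ≠ 1) : ¬ (N : ℤ) ∣ E x l - E x l' := by
  rintro ⟨k, hk⟩
  apply h
  rw [den_one_iff]
  refine ⟨k, ?_⟩
  have hNq : (N : ℚ) ≠ 0 := by exact_mod_cast hN.ne'
  have h1 : ((E x l : ℚ) - E x l') = N * k := by exact_mod_cast hk
  rw [← hE, ← hE, ← mul_sub] at h1
  exact mul_left_cancel₀ hNq h1

lemma cls_le (hN : 0 < N) (hE : ∀ i l, (N : ℚ) * lam i l = E i l) (x : Fin 3) :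
    cls N (E x) ≤ classes lam x := by
  unfold cls classes
  have hNz : (0 : ℤ) < N := by exact_mod_cast hN
  have hNq : (N : ℚ) ≠ 0 := by exact_mod_cast hN.ne'
  have h1 : (univ.image fun l => E x l % (N : ℤ)) =
      (univ.image fun l => Int.fract (lam x l)).image fun t => ⌊(N : ℚ) * t⌋ := by
    rw [image_image]
    refine image_congr fun l _ => ?_
    change E x l % (N : ℤ) = ⌊(N : ℚ) * Int.fract (lam x l)⌋
    have h2 : (N : ℚ) * Int.fract (lam x l) = ((E x l - N * ⌊lam x l⌋ : ℤ) : ℚ) := by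
      unfold Int.fract
      push_cast
      rw [← hE]
      ring
    rw [h2, Int.floor_intCast]
    have h3 : 0 ≤ Int.fract (lam x l) := Int.fract_nonneg _
    have h4 : Int.fract (lam x l) < 1 := Int.fract_lt_one _
    have hN0 : (0 : ℚ) < N := by exact_mod_cast hN
    have h5 : (0 : ℚ) ≤ ((E x l - N * ⌊lam x l⌋ : ℤ) : ℚ) := by rw [← h2]; positivity
    have h6 : ((E x l - N * ⌊lam x l⌋ : ℤ) : ℚ) < N := by
      rw [← h2]
      calc (N : ℚ) * Int.fract (lam x l) < N * 1 := mul_lt_mul_of_pos_left h4 hN0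
        _ = N := mul_one _
    have h5' : 0 ≤ E x l - N * ⌊lam x l⌋ := by exact_mod_cast h5
    have h6' : E x l - N * ⌊lam x l⌋ < N := by exact_mod_cast h6
    have h7 : E x l = (E x l - N * ⌊lam x l⌋) + N * ⌊lam x l⌋ := by ring
    rw [h7, Int.add_mul_emod_self_left, Int.emod_eq_of_lt h5' h6']
    ring
  rw [h1]
  exact card_image_le

lemma opposite_of (hN : 0 < N) (hE : ∀ i l, (N : ℚ) * lam i l = E i l) {x y : Fin 3} {c : ℤ}
    (h : ∀ q : ℤ, (univ.filter fun l => (N : ℤ) ∣ E x l - q).card =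
      (univ.filter fun l => (N : ℤ) ∣ E y l + q - c).card) : Opposite lam x y (c / N) := by
  have hNq : (N : ℚ) ≠ 0 := by exact_mod_cast hN.ne'
  intro q
  by_cases hq : ∃ m : ℤ, (N : ℚ) * q = m
  · obtain ⟨m, hm⟩ := hq
    have h1 := h m
    have e1 : ∀ l, (lam x l - q).den = 1 ↔ (N : ℤ) ∣ E x l - m := by
      intro l
      rw [den_one_iff]
      constructor
      · rintro ⟨k, hk⟩
        refine ⟨k, ?_⟩
        have : ((E x l : ℚ) - m) = N * k := by rw [← hE, ← hm, ← mul_sub, hk]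
        exact_mod_cast this
      · rintro ⟨k, hk⟩
        refine ⟨k, ?_⟩
        have : ((E x l : ℚ) - m) = N * k := by exact_mod_cast hk
        rw [← hE, ← hm, ← mul_sub] at this
        exact mul_left_cancel₀ hNq this
    have e2 : ∀ l, (lam y l + q - c / N).den = 1 ↔ (N : ℤ) ∣ E y l + m - c := by
      intro l
      have h3 : (N : ℚ) * (lam y l + q - c / N) = E y l + m - c := by
        rw [← hE, ← hm]; field_simp
      rw [den_one_iff]
      constructor
      · rintro ⟨k, hk⟩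
        refine ⟨k, ?_⟩
        rw [hk] at h3
        have : ((E y l : ℚ) + m - c) = N * k := h3.symm
        exact_mod_cast this
      · rintro ⟨k, hk⟩
        refine ⟨k, ?_⟩
        have : ((E y l : ℚ) + m - c) = N * k := by exact_mod_cast hk
        rw [this] at h3
        exact mul_left_cancel₀ hNq h3
    rw [filter_congr fun l _ => e1 l, filter_congr fun l _ => e2 l]
    exact h1
  · have e1 : (univ.filter fun l => (lam x l - q).den = 1) = ∅ := by
      rw [filter_eq_empty_iff]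
      intro l _ hl
      obtain ⟨k, hk⟩ := den_one_iff.1 hl
      apply hq
      refine ⟨E x l - N * k, ?_⟩
      push_cast
      rw [← hE, ← hk]; ring
    have e2 : (univ.filter fun l => (lam y l + q - c / N).den = 1) = ∅ := by
      rw [filter_eq_empty_iff]
      intro l _ hl
      obtain ⟨k, hk⟩ := den_one_iff.1 hl
      apply hq
      refine ⟨N * k - E y l + c, ?_⟩
      push_cast
      rw [← hE, ← hk]
      field_simp
      ring
    rw [e1, e2]

end trans

section sys

variable {R : Type u} [CommRing R] [IsDomain R] [CharZero R]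

lemma classes_pos (hr : 0 < r) (lam : Fin 3 → Fin r → ℚ) (x : Fin 3) : 1 ≤ classes lam x := by
  unfold classes
  exact card_pos.2 ⟨_, mem_image.2 ⟨⟨0, hr⟩, mem_univ _, rfl⟩⟩

lemma onePoint_pos {lam : Fin 3 → Fin r → ℚ} {x y z : Fin 3} (h : OnePoint lam x y z) : 0 < r := by
  rcases Nat.eq_zero_or_pos r with h0 | h0
  · exfalso
    subst h0
    have hopp : ∀ c, Opposite lam x y c := by
      intro c q
      simp
    obtain ⟨M, n, hM, hn, hMn, hdx, hdy, hdz, ⟨-, h1⟩ | ⟨-, -, h1⟩⟩ := h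
    · exact h1 0 (hopp 0)
    · exact h1 0 (hopp 0) fun l => l.elim0
  · exact h0

/-- A number is the product of a number prime to `n` and a divisor of a power of `n`. -/
lemma exists_split (n : ℕ) : ∀ m : ℕ, 0 < m → ∃ m1 m2 k : ℕ, m = m1 * m2 ∧ Nat.Coprime m1 n ∧
    m2 ∣ n ^ k := by
  intro m
  induction m using Nat.strong_induction_on with
  | _ m ih =>
    intro hm
    by_cases hg : Nat.gcd m n = 1
    · exact ⟨m, 1, 0, by simp, hg, by simp⟩
    · obtain ⟨m', hm'⟩ := Nat.gcd_dvd_left m n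
      have hg0 : 0 < Nat.gcd m n := Nat.gcd_pos_of_pos_left n hm
      have hm'0 : 0 < m' := by
        rcases Nat.eq_zero_or_pos m' with h | h
        · rw [h] at hm'; omega
        · exact h
      have hlt : m' < m := by
        calc m' = 1 * m' := (one_mul m').symm
          _ < Nat.gcd m n * m' := Nat.mul_lt_mul_of_pos_right (by omega) hm'0
          _ = m := hm'.symm
      obtain ⟨m1, m2, k, h1, h2, h3⟩ := ih m' hlt hm'0
      refine ⟨m1, Nat.gcd m n * m2, k + 1, ?_, h2, ?_⟩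
      · calc m = Nat.gcd m n * m' := hm'
          _ = m1 * (Nat.gcd m n * m2) := by rw [h1]; ring
      · rw [pow_succ, mul_comm]
        exact Nat.mul_dvd_mul h3 (Nat.gcd_dvd_right m n)

variable (α : Fin 2 → R) (hα : ∀ i j, i ≠ j → IsUnit (α i - α j))
    (A : Fin 2 → Matrix (Fin r) (Fin r) R)
    (lam : Fin 3 → Fin r → ℚ) (hlam : ∀ j : Fin 2, HasExponents (A j) (lam j.castSucc))
    (hphi : HasExponents (∑ j, A j) (fun l => -lam 2 l)) {B : ℕ} (hB : 0 < B)
    (hBlam : ∀ i l, ∃ m : ℤ, (B : ℚ) * lam i l = m)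

include hα hlam hphi hB hBlam

theorem sys_onePoint {x y z : Fin 3} (hxy : x ≠ y) (hyz : y ≠ z) (hxz : x ≠ z)
    (h : OnePoint lam x y z) : BadClass α A B := by
  by_contra hbad
  have hr := onePoint_pos h
  obtain ⟨M, n, hM, hn, hMn, hdx, hdy, hdz, hcase⟩ := h
  have hN : 0 < B * (2 * M * n) := by positivity
  obtain ⟨E, hE, harcs⟩ := sys_arcs α hα A lam hlam hphi hBlam hbad hN (Dvd.intro _ rfl)
  set N := B * (2 * M * n) with hNdef
  set k : Fin r := ⟨0, hr⟩
  have hNq : (N : ℚ) ≠ 0 := by exact_mod_cast hN.ne'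
  have hcl := cls_le hN hE z
  have hcz : 1 ≤ classes lam z := classes_pos hr lam z
  rcases hcase with ⟨hR, hopp⟩ | ⟨hR, hsum, hopp⟩
  · have hR' := hR.mono (by omega) (Nat.sub_le_sub_right hcl 1)
    unfold Rough at hR'
    push_cast at hR'
    obtain ⟨c, hc⟩ := one_large hN k harcs hxy hyz hxz hM hn hMn (Dvd.intro_left B rfl)
      (hdx.dvd hN hE) (hdy.dvd hN hE) (hdz.dvd hN hE) hR'
    exact hopp _ (opposite_of hN hE hc)
  · have hR' := hR.mono (k' := cls N (E z) - 1 + 1) (by omega) (by omega)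
    unfold Rough at hR'
    push_cast at hR'
    obtain ⟨c, hc1, hc⟩ := one_twisted hN k harcs hxy hyz hxz hM hn hMn (Dvd.intro_left B rfl)
      (hdx.dvd hN hE) (hdy.dvd hN hE) (hdz.dvd hN hE) (by
        obtain ⟨m, hm⟩ := hsum fun _ => k
        refine ⟨m, ?_⟩
        rw [sum_fin3 hxy hyz hxz] at hm
        have h1 : ((M : ℚ) * n * (E x k + E y k + E z k)) = N * m := by
          rw [← hm, ← hE, ← hE, ← hE]; push_cast; ring
        exact_mod_cast h1) hR'
    refine hopp _ (opposite_of hN hE hc) fun l => ?_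
    obtain ⟨m, hm⟩ := hc1
    obtain ⟨m', hm'⟩ := hdz l k
    refine ⟨m + m', ?_⟩
    have h1 : ((n : ℚ) * (E z k + c)) = N * m := by exact_mod_cast hm
    have h2 : (N : ℚ) * ((n : ℚ) * (lam z l + c / N)) = N * ((m + m' : ℤ) : ℚ) := by
      have h3 : (N : ℚ) * (c / N) = c := by field_simp
      rw [← hE] at h1
      push_cast
      linear_combination h1 + (N : ℚ) * hm' + (n : ℚ) * h3
    exact mul_left_cancel₀ hNq h2

theorem sys_twoPoints {x y z : Fin 3} (hxy : x ≠ y) (hyz : y ≠ z) (hxz : x ≠ z)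
    (h : TwoPoints lam y z) : BadClass α A B := by
  by_contra hbad
  obtain ⟨n₀, hn₀, hdy₀, hdz₀, hR₀, κ, p₀, hp₀, hpn, hpd⟩ := h
  have hr0 : 0 < r := Fin.pos (κ 0)
  set q₀ : ℚ := ∑ i, lam i (κ i) with hq₀
  obtain ⟨M, m2, j, hden, hcop, hm2⟩ := exists_split n₀ q₀.den q₀.den_pos
  have hM : 0 < M := by
    rcases Nat.eq_zero_or_pos M with h | h
    · rw [h, zero_mul] at hden
      exact absurd hden q₀.den_nz
    · exact h
  set n := n₀ ^ (j + 1) with hndef
  have hn : 0 < n := pow_pos hn₀ _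
  have hMn : Nat.Coprime M n := Nat.Coprime.pow_right _ hcop
  have hn₀n : n₀ ∣ n := dvd_pow_self _ (by omega)
  have hdiff : ∀ w, DiffIn lam w n₀ → DiffIn lam w n := by
    intro w hw l l'
    obtain ⟨m, hm⟩ := hw l l'
    obtain ⟨t, ht⟩ := hn₀n
    refine ⟨t * m, ?_⟩
    rw [ht]
    push_cast
    rw [← hm]; ring
  have hdy := hdiff y hdy₀
  have hdz := hdiff z hdz₀
  have hR : Rough n 24 (classes lam y - 1 + classes lam z) := by
    unfold Rough at hR₀ ⊢
    rwa [hndef, Nat.primeFactors_pow _ (by omega)]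
  -- the sum
  have hs1 : ∃ m : ℤ, ((M : ℚ) * n) * q₀ = m := by
    obtain ⟨t, ht⟩ : q₀.den ∣ M * n := by
      rw [hden]
      exact Nat.mul_dvd_mul (dvd_refl _) (hm2.trans (pow_dvd_pow _ (by omega)))
    refine ⟨t * q₀.num, ?_⟩
    have h1 : ((M : ℚ) * n) = q₀.den * t := by exact_mod_cast ht
    rw [h1]
    push_cast
    have := Rat.den_mul_eq_num q₀
    linear_combination (t : ℚ) * this
  have hs2 : ¬ ∃ m : ℤ, (n : ℚ) * q₀ = m := by
    rintro ⟨m, hm⟩
    apply hpn
    have h1 : (q₀.den : ℤ) ∣ n := by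
      have h2 : (n : ℤ) * q₀.num = m * q₀.den := by
        have h3 := Rat.den_mul_eq_num q₀
        have h4 : (n : ℚ) * q₀.num = m * q₀.den := by
          rw [← hm, ← h3]; ring
        exact_mod_cast h4
      have h3 : IsCoprime (q₀.den : ℤ) q₀.num := by
        rw [Int.isCoprime_iff_gcd_eq_one, Int.gcd_comm]
        exact q₀.reduced
      exact h3.dvd_of_dvd_mul_right ⟨m, by rw [h2]; ring⟩
    have h2 : q₀.den ∣ n := by exact_mod_cast h1
    exact hp₀.dvd_of_dvd_pow (hpd.trans h2)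
  have hN : 0 < B * (24 * M * n) := by positivity
  obtain ⟨E, hE, harcs⟩ := sys_arcs α hα A lam hlam hphi hBlam hbad hN (Dvd.intro _ rfl)
  set N := B * (24 * M * n) with hNdef
  set k : Fin r := ⟨0, hr0⟩
  have hNq : (N : ℚ) ≠ 0 := by exact_mod_cast hN.ne'
  have hcly := cls_le hN hE y
  have hclz := cls_le hN hE z
  have hcz : 1 ≤ classes lam z := classes_pos hr0 lam z
  have hR' := hR.mono (k' := cls N (E y) - 1 + (cls N (E z) - 1) + 1) (by omega) (by omega)
  unfold Rough at hR'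
  push_cast at hR'
  obtain ⟨m1, hm1⟩ := hdy (κ y) k
  obtain ⟨m2, hm2⟩ := hdz (κ z) k
  have hq₀' : q₀ = lam x (κ x) + lam y (κ y) + lam z (κ z) := by
    rw [hq₀, sum_fin3 hxy hyz hxz]
  refine two_twisted (k := k) (l₁ := κ x) hN harcs hxy hyz hxz hM hn hMn (Dvd.intro_left B rfl)
    (hdy.dvd hN hE) (hdz.dvd hN hE) ?_ ?_ hR'
  · obtain ⟨m, hm⟩ := hs1
    refine ⟨m - M * m1 - M * m2, ?_⟩
    have h1 : ((M : ℚ) * n * (E x (κ x) + E y k + E z k)) = N * ((m - M * m1 - M * m2 : ℤ) : ℚ) := by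
      rw [← hE, ← hE, ← hE]
      push_cast
      rw [hq₀'] at hm
      linear_combination (N : ℚ) * hm - (N : ℚ) * M * hm1 - (N : ℚ) * M * hm2
    exact_mod_cast h1
  · rintro ⟨m, hm⟩
    apply hs2
    refine ⟨m + m1 + m2, ?_⟩
    have h1 : ((n : ℚ) * (E x (κ x) + E y k + E z k)) = N * m := by exact_mod_cast hm
    have h2 : (N : ℚ) * ((n : ℚ) * q₀) = N * ((m + m1 + m2 : ℤ) : ℚ) := by
      rw [hq₀']
      rw [← hE, ← hE, ← hE] at h1
      push_cast
      linear_combination h1 + (N : ℚ) * hm1 + (N : ℚ) * hm2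
    exact mul_left_cancel₀ hNq h2

end sys

/-- Three different primes. -/
theorem ThreePrimes.points {lam : Fin 3 → Fin r → ℚ} (h : ThreePrimes lam) :
    ∃ x y z : Fin 3, x ≠ y ∧ y ≠ z ∧ x ≠ z ∧ (OnePoint lam x y z ∨ TwoPoints lam y z) := by
  obtain ⟨p, k, hinj, hp, i₀, hi₀⟩ := h
  -- the largest prime
  obtain ⟨z, -, hz⟩ := exists_max_image univ p ⟨0, mem_univ _⟩
  have hz' : ∀ w, p w ≤ p z := fun w => hz w (mem_univ _)
  obtain ⟨x, y, hxy, hyz, hxz, hle⟩ : ∃ x y : Fin 3, x ≠ y ∧ y ≠ z ∧ x ≠ z ∧ p x ≤ p y := by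
    obtain ⟨a, b, hab, hbz, haz⟩ : ∃ a b : Fin 3, a ≠ b ∧ b ≠ z ∧ a ≠ z := by
      fin_cases z
      · exact ⟨1, 2, by decide, by decide, by decide⟩
      · exact ⟨0, 2, by decide, by decide, by decide⟩
      · exact ⟨0, 1, by decide, by decide, by decide⟩
    rcases le_total (p a) (p b) with h | h
    · exact ⟨a, b, hab, hbz, haz, h⟩
    · exact ⟨b, a, hab.symm, haz, hbz, h⟩
  have hlz : (8 * 24 ^ (4 * k + 2)) ^ k ≤ p z := hi₀.trans (hz' _)
  have hne : ∀ {a b : Fin 3}, a ≠ b → Nat.Coprime (p a) (p b) := fun {a b} hab =>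
    (Nat.coprime_primes (hp a).1 (hp b).1).2 fun h => hab (hinj h)
  have hylt : p y < p z := lt_of_le_of_ne (hz' y) fun h => hyz (hinj h)
  have hclz : classes lam z ≤ k + 1 := (hp z).2.2.2
  have hcly : classes lam y - 1 ≤ k := by have := (hp y).2.2.2; omega
  have px := (hp x).1.pos
  have py := (hp y).1.pos
  have pz := (hp z).1.pos
  have pyq : (0 : ℚ) < p y := by exact_mod_cast py
  have pzq : (0 : ℚ) < p z := by exact_mod_cast pz
  refine ⟨x, y, z, hxy, hyz, hxz, ?_⟩
  by_cases hc : p y < 2 * 24 ^ (2 * k + 1)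
  · left
    refine ⟨p x * p y, p z, by positivity, pz, Nat.Coprime.mul_left (hne hxz) (hne hyz), ?_, ?_,
      (hp z).2.1, Or.inl ⟨?_, ?_⟩⟩
    · intro l l'
      obtain ⟨m, hm⟩ := (hp x).2.1 l l'
      refine ⟨p y * m, ?_⟩
      push_cast
      rw [← hm]; ring
    · intro l l'
      obtain ⟨m, hm⟩ := (hp y).2.1 l l'
      refine ⟨p x * m, ?_⟩
      push_cast
      rw [← hm]; ring
    · have h1 : 2 * (p x * p y) < 8 * 24 ^ (4 * k + 2) := by
        have h2 : p x * p y < (2 * 24 ^ (2 * k + 1)) * (2 * 24 ^ (2 * k + 1)) :=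
          Nat.mul_lt_mul'' (hle.trans_lt hc) hc
        calc 2 * (p x * p y) < 2 * ((2 * 24 ^ (2 * k + 1)) * (2 * 24 ^ (2 * k + 1))) := by omega
          _ = 8 * 24 ^ (4 * k + 2) := by
            rw [show 4 * k + 2 = (2 * k + 1) + (2 * k + 1) by ring, pow_add]; ring
      have h3 : Rough (p z) (2 * (p x * p y)) k := by
        unfold Rough
        rw [Nat.Prime.primeFactors (hp z).1, sum_singleton, div_mul_eq_mul_div, one_mul,
          div_lt_one pzq]
        by_cases hk : k = 0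
        · subst hk
          simpa using (hp z).1.one_lt
        · exact_mod_cast lt_of_lt_of_le (Nat.pow_lt_pow_left h1 hk) hlz
      exact h3.mono (by have := Nat.mul_pos px py; omega) (by omega)
    · intro c hopp
      obtain ⟨l, l', hll⟩ := (hp x).2.2.1
      have key : ∀ l, ∃ m, ∃ e : ℤ, lam y m + lam x l - c = e := by
        intro l
        have h1 := hopp (lam x l)
        have h2 : 0 < (univ.filter fun m => (lam x m - lam x l).den = 1).card :=
          card_pos.2 ⟨l, mem_filter.2 ⟨mem_univ _, by simp⟩⟩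
        rw [h1] at h2
        obtain ⟨m, hm⟩ := card_pos.1 h2
        exact ⟨m, den_one_iff.1 (mem_filter.1 hm).2⟩
      obtain ⟨m, e, he⟩ := key l
      obtain ⟨m', e', he'⟩ := key l'
      obtain ⟨a, ha⟩ := (hp x).2.1 l l'
      obtain ⟨b, hb⟩ := (hp y).2.1 m m'
      apply hll
      have hb' : (p y : ℚ) * (lam x l - lam x l') = ((p y * (e - e') - b : ℤ) : ℚ) := by
        push_cast
        linear_combination (p y : ℚ) * he - (p y : ℚ) * he' - hb
      have hco : IsCoprime (p x : ℤ) (p y : ℤ) := Nat.isCoprime_iff_coprime.2 (hne hxy)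
      obtain ⟨u, v, huv⟩ := hco
      have huv' : (u : ℚ) * p x + v * p y = 1 := by exact_mod_cast huv
      rw [den_one_iff]
      refine ⟨u * a + v * (p y * (e - e') - b), ?_⟩
      push_cast
      push_cast at hb'
      linear_combination (-(lam x l - lam x l')) * huv' + (u : ℚ) * ha + (v : ℚ) * hb'
  · right
    push Not at hc
    have hd : ∀ (w w' : Fin 3), DiffIn lam w (p w) → ∀ l l', ∃ m : ℤ,
        ((p w' : ℚ) * p w) * (lam w l - lam w l') = m := by
      intro w w' h l l'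
      obtain ⟨m, hm⟩ := h l l'
      refine ⟨p w' * m, ?_⟩
      push_cast
      rw [← hm]; ring
    obtain ⟨l, l', hll⟩ := (hp x).2.2.1
    have hxn : ¬ p x ∣ p y * p z := by
      rw [Nat.Prime.dvd_mul (hp x).1, Nat.prime_dvd_prime_iff_eq (hp x).1 (hp y).1,
        Nat.prime_dvd_prime_iff_eq (hp x).1 (hp z).1]
      rintro (h | h)
      · exact hxy (hinj h)
      · exact hxz (hinj h)
    -- a sum of exponents with the denominator divisible by `p x`
    have hsum : ∃ κ : Fin 3 → Fin r, p x ∣ (∑ i, lam i (κ i)).den := by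
      by_contra hcon
      push Not at hcon
      let κ : Fin r → Fin 3 → Fin r := fun m i => if i = x then m else l
      have e1 : ∀ m, ∑ i, lam i (κ m i) = lam x m + lam y l + lam z l := by
        intro m
        rw [sum_fin3 hxy hyz hxz]
        simp only [κ, if_pos rfl, if_neg hxy.symm, if_neg hxz.symm]
      have e2 : lam x l - lam x l' = ∑ i, lam i (κ l i) - ∑ i, lam i (κ l' i) := by
        rw [e1, e1]; ring
      have h1 := hcon (κ l)
      have h2 := hcon (κ l')
      obtain ⟨a, ha⟩ := (hp x).2.1 l l'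
      set s1 := ∑ i, lam i (κ l i)
      set s2 := ∑ i, lam i (κ l' i)
      have h3 : ¬ p x ∣ s1.den * s2.den := by
        rw [Nat.Prime.dvd_mul (hp x).1]; tauto
      have h4 : ∃ b : ℤ, ((s1.den * s2.den : ℕ) : ℚ) * (lam x l - lam x l') = b := by
        refine ⟨s2.den * s1.num - s1.den * s2.num, ?_⟩
        rw [e2]
        push_cast
        have a1 := Rat.den_mul_eq_num s1
        have a2 := Rat.den_mul_eq_num s2
        linear_combination (s2.den : ℚ) * a1 - (s1.den : ℚ) * a2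
      obtain ⟨b, hb⟩ := h4
      have hco : IsCoprime (p x : ℤ) ((s1.den * s2.den : ℕ) : ℤ) :=
        Nat.isCoprime_iff_coprime.2 ((Nat.Prime.coprime_iff_not_dvd (hp x).1).2 h3)
      obtain ⟨u, v, huv⟩ := hco
      have huv' : (u : ℚ) * p x + v * ((s1.den * s2.den : ℕ) : ℚ) = 1 := by exact_mod_cast huv
      apply hll
      rw [den_one_iff]
      refine ⟨u * a + v * b, ?_⟩
      push_cast at hb huv' ⊢
      linear_combination (-(lam x l - lam x l')) * huv' + (u : ℚ) * ha + (v : ℚ) * hb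
    obtain ⟨κ, hκ⟩ := hsum
    refine ⟨p y * p z, by positivity, ?_, ?_, ?_, κ, p x, (hp x).1, hxn, hκ⟩
    · intro l l'
      obtain ⟨m, hm⟩ := hd y z (hp y).2.1 l l'
      refine ⟨m, ?_⟩
      rw [← hm]; push_cast; ring
    · intro l l'
      obtain ⟨m, hm⟩ := hd z y (hp z).2.1 l l'
      refine ⟨m, ?_⟩
      rw [← hm]; push_cast; ring
    · refine Rough.mono (k := 2 * k + 1) (by norm_num) ?_ (by omega)
      unfold Rough
      rw [Nat.primeFactors_mul py.ne' pz.ne', Nat.Prime.primeFactors (hp y).1,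
        Nat.Prime.primeFactors (hp z).1]
      rw [show ({p y} ∪ {p z} : Finset ℕ) = {p y, p z} from rfl, sum_pair hylt.ne]
      have hK : (0 : ℚ) < 24 ^ (2 * k + 1) := by positivity
      have hcq : 2 * (24 : ℚ) ^ (2 * k + 1) ≤ p y := by exact_mod_cast hc
      have hyq : (p y : ℚ) < p z := by exact_mod_cast hylt
      have h1 : (1 : ℚ) / p z < 1 / p y := one_div_lt_one_div_of_lt pyq hyq
      have h2 : (1 : ℚ) / p y * 24 ^ (2 * k + 1) ≤ 1 / 2 := by
        rw [div_mul_eq_mul_div, one_mul, div_le_div_iff₀ pyq two_pos]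
        linarith
      have h3 : (1 : ℚ) / p z * 24 ^ (2 * k + 1) < 1 / p y * 24 ^ (2 * k + 1) :=
        mul_lt_mul_of_pos_right h1 hK
      push_cast
      linarith

end Pool.Agent.NH53.LP
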